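import Pool.Agent.RKH.Core

/-!
The combinatorial core for a well ordered set: for every type C of colours there is a well
ordered L such that for every colouring D of the triples (a, M, a') there are two colours for
which every finite ordered graph is realised.
-/

set_option autoImplicit false

open Cardinal Order

namespace Pool.Agent.RKP

open Pool.Agent.RKH

universe u

private theorem unroll {La C A : Type u} [LinearOrder A] (D : La → Set La → La → C)
    (lev : La → A) (cc : Bool → C) (n : ℕ) :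
    ∀ (l : List La) (_ : LGood D lev cc (n : Ordinal.{u}) l) (K : Fin n → Fin n → Bool)
      (S : Fin n → List Bool) (_ : ∀ p, (S p).length = l.length),
      ∃ (a : Fin n → La) (M : Fin n → Set La), (∀ p, Fits D lev cc (a p) (M p) l (S p)) ∧
        ∀ p q, p < q → lev (a p) < lev (a q) ∧ (a q ∈ M p ↔ K p q = true) ∧
          D (a p) (M p) (a q) = cc (K p q) := by
  induction n with
  | zero =>
    intro l _ K S _
    exact ⟨fun p => p.elim0, fun p => p.elim0, fun p => p.elim0, fun p => p.elim0⟩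
  | succ n ih =>
    intro l hl K S hS
    rw [lgood_iff] at hl
    obtain ⟨c, e, hce, hl'⟩ := hl (n : Ordinal.{u}) (by
      rw [Nat.cast_lt]
      exact Nat.lt_succ_self n) (S (Fin.last n)) (hS _)
    obtain ⟨a, M, h1, h2⟩ := ih (c :: l) hl' (fun p q => K p.castSucc q.castSucc)
      (fun p => K p.castSucc (Fin.last n) :: S p.castSucc) (fun p => by
        rw [List.length_cons, List.length_cons, hS])
    refine ⟨Fin.snoc (α := fun _ => La) a c, Fin.snoc (α := fun _ => Set La) M e, ?_, ?_⟩
    · intro p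
      refine Fin.lastCases ?_ (fun p => ?_) p
      · rw [Fin.snoc_last, Fin.snoc_last]
        exact hce
      · rw [Fin.snoc_castSucc, Fin.snoc_castSucc]
        exact (List.forall₂_cons.1 (h1 p)).2
    · intro p q
      refine Fin.lastCases (fun hp => ?_) (fun q => ?_) q
      · obtain ⟨p, rfl⟩ := Fin.exists_castSucc_eq.2 hp.ne
        rw [Fin.snoc_last, Fin.snoc_castSucc, Fin.snoc_castSucc]
        exact (List.forall₂_cons.1 (h1 p)).1
      · intro hp
        have hp' : p ≠ Fin.last n := (hp.trans (Fin.castSucc_lt_last q)).ne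
        obtain ⟨p, rfl⟩ := Fin.exists_castSucc_eq.2 hp'
        rw [Fin.snoc_castSucc, Fin.snoc_castSucc, Fin.snoc_castSucc]
        exact h2 p q (Fin.castSucc_lt_castSucc_iff.1 hp)

/-- The combinatorial core for a well ordered set. -/
theorem core_lin (C : Type u) :
    ∃ (L : Type u) (_ : LinearOrder L) (_ : WellFoundedLT L),
      ∀ D : L → Set L → L → C, ∃ cc : Bool → C, ∀ (n : ℕ) (K : Fin n → Fin n → Bool),
        ∃ (a : Fin n → L) (M : Fin n → Set L), StrictMono a ∧
          ∀ p q, p < q → (a q ∈ M p ↔ K p q = true) ∧ D (a p) (M p) (a q) = cc (K p q) := by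
  classical
  obtain ⟨A, iA1, iA2, La, lev, h⟩ := core C Ordinal.omega0
  obtain ⟨iL1, iL2⟩ := exists_wellFoundedLT La
  refine ⟨A ×ₗ La, inferInstance, inferInstance, fun D => ?_⟩
  let g : La → A ×ₗ La := fun a => toLex (lev a, a)
  have hg : Function.Injective g := fun a b hab => (Prod.mk.inj (toLex.injective hab)).2
  obtain ⟨cc, hcc⟩ := h (fun c e a => D (g c) (g '' e) (g a))
  refine ⟨cc, fun n K => ?_⟩
  rcases Nat.eq_zero_or_pos n with rfl | hn
  · exact ⟨fun p => p.elim0, fun p => p.elim0, fun p => p.elim0, fun p => p.elim0⟩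
  obtain ⟨n, rfl⟩ : ∃ m, n = m + 1 := ⟨n - 1, by omega⟩
  rw [lgood_iff] at hcc
  obtain ⟨c, e, -, hce⟩ := hcc (n : Ordinal.{u}) (Ordinal.natCast_lt_omega0 n) [] rfl
  obtain ⟨a, M, h1, h2⟩ := unroll _ lev cc n [c] hce (fun p q => K p.castSucc q.castSucc)
    (fun p => [K p.castSucc (Fin.last n)]) (fun _ => rfl)
  have h3 : ∀ p, lev (a p) < lev c ∧ (c ∈ M p ↔ K p.castSucc (Fin.last n) = true) ∧
      D (g (a p)) (g '' M p) (g c) = cc (K p.castSucc (Fin.last n)) := fun p =>
    (List.forall₂_cons.1 (h1 p)).1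
  have hlt : ∀ a b : La, lev a < lev b → g a < g b := fun a b hab =>
    Prod.Lex.toLex_lt_toLex.2 (Or.inl hab)
  refine ⟨Fin.snoc (α := fun _ => A ×ₗ La) (fun p => g (a p)) (g c),
    Fin.snoc (α := fun _ => Set (A ×ₗ La)) (fun p => g '' M p) (g '' e), ?_, ?_⟩
  · intro p q
    refine Fin.lastCases (fun hp => ?_) (fun q => ?_) q
    · obtain ⟨p, rfl⟩ := Fin.exists_castSucc_eq.2 hp.ne
      rw [Fin.snoc_last, Fin.snoc_castSucc]
      exact hlt _ _ (h3 p).1
    · intro hp
      have hp' : p ≠ Fin.last n := (hp.trans (Fin.castSucc_lt_last q)).ne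
      obtain ⟨p, rfl⟩ := Fin.exists_castSucc_eq.2 hp'
      rw [Fin.snoc_castSucc, Fin.snoc_castSucc]
      exact hlt _ _ (h2 p q (Fin.castSucc_lt_castSucc_iff.1 hp)).1
  · intro p q
    refine Fin.lastCases (fun hp => ?_) (fun q => ?_) q
    · obtain ⟨p, rfl⟩ := Fin.exists_castSucc_eq.2 hp.ne
      rw [Fin.snoc_last, Fin.snoc_castSucc, Fin.snoc_castSucc, hg.mem_set_image]
      exact (h3 p).2
    · intro hp
      have hp' : p ≠ Fin.last n := (hp.trans (Fin.castSucc_lt_last q)).ne
      obtain ⟨p, rfl⟩ := Fin.exists_castSucc_eq.2 hp'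
      rw [Fin.snoc_castSucc, Fin.snoc_castSucc, Fin.snoc_castSucc, hg.mem_set_image]
      exact (h2 p q (Fin.castSucc_lt_castSucc_iff.1 hp)).2

end Pool.Agent.RKP
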