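import Mathlib

/-!
Graphs of bounded interface and their enumerations.
-/

set_option autoImplicit false

namespace Pool.Agent.RKP

/-- The graph H has interface at most k: every finite set of vertices is contained in a finite
set S of vertices for which all vertices outside of S, except at most k of them, have the same
neighbours in S. -/
def Interface {W : Type*} (H : SimpleGraph W) (k : ℕ) : Prop :=
  ∀ F : Finset W, ∃ S E : Finset W, F ⊆ S ∧ E.card ≤ k ∧
    ∀ u ∈ S, ∀ v w, v ∉ S → v ∉ E → w ∉ S → w ∉ E → (H.Adj v u ↔ H.Adj w u)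

section

variable {W : Type*} (H : SimpleGraph W) (k : ℕ)

/-- a finite initial part and the exceptional vertices -/
private structure St where
  l : List W
  e : List W
  nd : (l ++ e).Nodup
  len : e.length = k
  hom : ∀ u ∈ l, ∀ v w, v ∉ l ++ e → w ∉ l ++ e → (H.Adj v u ↔ H.Adj w u)

variable {H k}

private theorem exists_ext [Infinite W] (h : Interface H k) (p : St H k) (w0 : W) :
    ∃ q : St H k, (p.l ++ p.e) <+: q.l ∧ w0 ∈ q.l ∧ p.l.length < q.l.length := by
  classical
  obtain ⟨x, hx⟩ := Infinite.exists_notMem_finset ((p.l ++ p.e).toFinset)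
  obtain ⟨S, E, hF, hE, hS⟩ := h (insert x (insert w0 (p.l ++ p.e).toFinset))
  have hinf : ((↑(S ∪ E) : Set W)ᶜ).Infinite := (Finset.finite_toSet _).infinite_compl
  obtain ⟨T, hT, hTc⟩ := hinf.exists_subset_card_eq (k - (E \ S).card)
  have hE' : (E \ S).card ≤ k := (Finset.card_le_card Finset.sdiff_subset).trans hE
  have hdis : Disjoint (E \ S) T := by
    rw [Finset.disjoint_left]
    intro a ha haT
    have h1 := hT (Finset.mem_coe.2 haT)
    rw [Set.mem_compl_iff, Finset.mem_coe, Finset.mem_union] at h1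
    rw [Finset.mem_sdiff] at ha
    exact h1 (Or.inr ha.1)
  have hE2 : ((E \ S) ∪ T).card = k := by
    rw [Finset.card_union_of_disjoint hdis, hTc]
    omega
  have hle : (p.l ++ p.e).toFinset ⊆ S := fun a ha =>
    hF (Finset.mem_insert_of_mem (Finset.mem_insert_of_mem ha))
  have hmem : ∀ a, a ∈ p.l ++ p.e ++ (S \ (p.l ++ p.e).toFinset).toList ↔ a ∈ S := by
    intro a
    rw [List.mem_append, Finset.mem_toList, Finset.mem_sdiff, List.mem_toFinset]
    constructor
    · rintro (h1 | h1)
      · exact hle (List.mem_toFinset.2 h1)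
      · exact h1.1
    · intro h1
      by_cases h2 : a ∈ p.l ++ p.e
      · exact Or.inl h2
      · exact Or.inr ⟨h1, h2⟩
  have hmem2 : ∀ a, a ∈ (p.l ++ p.e ++ (S \ (p.l ++ p.e).toFinset).toList) ++
      ((E \ S) ∪ T).toList ↔ a ∈ S ∨ (a ∈ E \ S ∨ a ∈ T) := by
    intro a
    rw [List.mem_append, hmem, Finset.mem_toList, Finset.mem_union]
  refine ⟨⟨p.l ++ p.e ++ (S \ (p.l ++ p.e).toFinset).toList, ((E \ S) ∪ T).toList, ?_, ?_, ?_⟩,
    ?_, ?_, ?_⟩
  · rw [List.nodup_append]
    refine ⟨?_, Finset.nodup_toList _, ?_⟩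
    · rw [List.nodup_append]
      refine ⟨p.nd, Finset.nodup_toList _, ?_⟩
      intro a ha b hb hab
      subst hab
      rw [Finset.mem_toList, Finset.mem_sdiff, List.mem_toFinset] at hb
      exact hb.2 ha
    · intro a ha b hb hab
      subst hab
      rw [hmem] at ha
      rw [Finset.mem_toList, Finset.mem_union, Finset.mem_sdiff] at hb
      rcases hb with hb | hb
      · exact hb.2 ha
      · have h1 := hT (Finset.mem_coe.2 hb)
        rw [Set.mem_compl_iff, Finset.mem_coe, Finset.mem_union] at h1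
        exact h1 (Or.inl ha)
  · rw [Finset.length_toList, hE2]
  · intro u hu v w hv hw
    rw [hmem] at hu
    rw [hmem2] at hv hw
    have h1 : ∀ v, ¬ (v ∈ S ∨ (v ∈ E \ S ∨ v ∈ T)) → v ∉ S ∧ v ∉ E := by
      intro v hv
      refine ⟨fun h => hv (Or.inl h), fun h => ?_⟩
      by_cases h2 : v ∈ S
      · exact hv (Or.inl h2)
      · exact hv (Or.inr (Or.inl (Finset.mem_sdiff.2 ⟨h, h2⟩)))
    exact hS u hu v w (h1 v hv).1 (h1 v hv).2 (h1 w hw).1 (h1 w hw).2
  · exact List.prefix_append _ _
  · exact (hmem w0).2 (hF (Finset.mem_insert_of_mem (Finset.mem_insert_self _ _)))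
  · change p.l.length < (p.l ++ p.e ++ (S \ (p.l ++ p.e).toFinset).toList).length
    have hxS : x ∈ S \ (p.l ++ p.e).toFinset :=
      Finset.mem_sdiff.2 ⟨hF (Finset.mem_insert_self _ _), hx⟩
    have h1 : 0 < (S \ (p.l ++ p.e).toFinset).toList.length := by
      rw [Finset.length_toList]
      exact Finset.card_pos.2 ⟨x, hxS⟩
    rw [List.length_append, List.length_append]
    omega

private theorem enum_infinite [Countable W] [Infinite W] (h : Interface H k) :
    ∃ (en : ℕ → W) (b : ℕ → ℕ), Function.Bijective en ∧ b 0 = 0 ∧ (∀ j, b j < b (j + 1)) ∧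
      (∀ j, b j + k ≤ b (j + 1)) ∧
      ∀ j i m m', i < b j → b j + k ≤ m → b j + k ≤ m' →
        (H.Adj (en m) (en i) ↔ H.Adj (en m') (en i)) := by
  classical
  obtain ⟨wv, hwv⟩ := exists_surjective_nat W
  obtain ⟨T, -, hTc⟩ := (Set.infinite_univ (α := W)).exists_subset_card_eq k
  let p0 : St H k := ⟨[], T.toList, by simpa using Finset.nodup_toList T, by simp [hTc],
    fun u hu => absurd hu (List.not_mem_nil)⟩
  choose nx hn1 hn2 hn3 using fun (p : St H k) (w0 : W) => exists_ext h p w0
  let f : ℕ → St H k := fun j => Nat.rec p0 (fun j p => nx p (wv j)) j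
  have f0 : f 0 = p0 := rfl
  have fs : ∀ j, f (j + 1) = nx (f j) (wv j) := fun j => rfl
  have hb : ∀ j, (f j).l.length < (f (j + 1)).l.length := by
    intro j
    rw [fs]
    exact hn3 _ _
  have hpre1 : ∀ j, ((f j).l ++ (f j).e) <+: (f (j + 1)).l := by
    intro j
    rw [fs]
    exact hn1 _ _
  have hpre2 : ∀ j, (f j).l <+: (f (j + 1)).l := fun j =>
    (List.prefix_append _ _).trans (hpre1 j)
  have hpre : ∀ j j', j ≤ j' → (f j).l <+: (f j').l := by
    intro j j' hjj
    induction hjj with
    | refl => exact List.prefix_rfl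
    | step _ ih => exact ih.trans (hpre2 _)
  have hbj : ∀ j, j ≤ (f j).l.length := by
    intro j
    induction j with
    | zero => exact Nat.zero_le _
    | succ j ih =>
      have := hb j
      omega
  have hlt : ∀ i, i < (f (i + 1)).l.length := fun i => hbj (i + 1)
  let en : ℕ → W := fun i => (f (i + 1)).l[i]'(hlt i)
  have hen0 : ∀ i, (f (i + 1)).l[i]? = some (en i) := fun i =>
    List.getElem?_eq_getElem (hlt i)
  have hget : ∀ (l l' : List W) (i : ℕ), l <+: l' → i < l.length → l'[i]? = l[i]? := by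
    rintro l l' i ⟨r, rfl⟩ hi
    exact List.getElem?_append_left hi
  have hen : ∀ j i, i < (f j).l.length → (f j).l[i]? = some (en i) := by
    intro j i hi
    rcases le_total j (i + 1) with h1 | h1
    · rw [← hget _ _ i (hpre j (i + 1) h1) hi]
      exact hen0 i
    · rw [hget _ _ i (hpre (i + 1) j h1) (hlt i)]
      exact hen0 i
  have hnd : ∀ j, (f j).l.Nodup := fun j => (List.nodup_append.1 (f j).nd).1
  have hinj : Function.Injective en := by
    intro i i' hii
    have h3 : i < (f (max i i' + 1)).l.length :=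
      lt_of_lt_of_le (show i < max i i' + 1 by omega) (hbj (max i i' + 1))
    have h4 : i' < (f (max i i' + 1)).l.length :=
      lt_of_lt_of_le (show i' < max i i' + 1 by omega) (hbj (max i i' + 1))
    have h1 := hen (max i i' + 1) i h3
    have h2 := hen (max i i' + 1) i' h4
    rw [hii, ← h2] at h1
    exact (List.getElem?_inj h3 (hnd (max i i' + 1))).1 h1
  have hmem : ∀ j i, i < (f j).l.length → en i ∈ (f j).l := fun j i hi =>
    List.mem_of_getElem? (hen j i hi)
  refine ⟨en, fun j => (f j).l.length, ⟨hinj, ?_⟩, ?_, hb, ?_, ?_⟩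
  · intro w
    obtain ⟨j, rfl⟩ := hwv w
    have h1 : wv j ∈ (f (j + 1)).l := by
      rw [fs]
      exact hn2 _ _
    obtain ⟨i, hi, h2⟩ := List.getElem_of_mem h1
    refine ⟨i, ?_⟩
    have h3 := hen (j + 1) i hi
    rw [List.getElem?_eq_getElem hi, h2] at h3
    exact (Option.some.inj h3).symm
  · rfl
  · intro j
    have h1 := (hpre1 j).length_le
    rw [List.length_append, (f j).len] at h1
    exact h1
  · intro j i m m' hi hm hm'
    have hnot : ∀ m, (f j).l.length + k ≤ m → en m ∉ (f j).l ++ (f j).e := by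
      intro m hm hmem
      obtain ⟨i', hi', h2⟩ := List.getElem_of_mem hmem
      have hi'' : i' < (f (j + 1)).l.length := lt_of_lt_of_le hi' (hpre1 j).length_le
      have h3 := hen (j + 1) i' hi''
      rw [hget _ _ i' (hpre1 j) hi', List.getElem?_eq_getElem hi', h2] at h3
      have h4 := hinj (Option.some.inj h3)
      rw [List.length_append, (f j).len] at hi'
      omega
    exact (f j).hom (en i) (hmem j i hi) _ _ (hnot m hm) (hnot m' hm')

end

private theorem enum_aux {W : Type*} [Countable W] [Infinite W] {H : SimpleGraph W} {k : ℕ}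
    (h : Interface H k) :
    ∃ (f : W → ℕ) (A : ℕ → ℕ → Bool) (b : ℕ → ℕ) (t : ℕ → Bool), Function.Injective f ∧
      (∀ u v, H.Adj u v ↔ A (f u) (f v) = true) ∧ (∀ i m, A i m = A m i) ∧
      b 0 = 0 ∧ (∀ j, b j < b (j + 1)) ∧ (∀ j, b j + k ≤ b (j + 1)) ∧
      ∀ j i m, i < b j → b j + k ≤ m → A i m = t i := by
  classical
  obtain ⟨en, b, hen, b0, b1, b2, hb⟩ := enum_infinite h
  let e : ℕ ≃ W := Equiv.ofBijective en hen
  let A : ℕ → ℕ → Bool := fun i m => decide (H.Adj (en m) (en i))
  have hbi : ∀ i, i < b (i + 1) := by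
    intro i
    induction i with
    | zero =>
      have := b1 0
      omega
    | succ i ih =>
      have := b1 (i + 1)
      omega
  refine ⟨e.symm, A, b, fun i => A i (b (i + 1) + k), e.symm.injective, ?_, ?_, b0, b1, b2, ?_⟩
  · intro u v
    have h1 : ∀ u, en (e.symm u) = u := fun u => e.apply_symm_apply u
    change H.Adj u v ↔ decide (H.Adj (en (e.symm v)) (en (e.symm u))) = true
    rw [h1, h1, decide_eq_true_iff]
    exact H.adj_comm u v
  · intro i m
    exact decide_eq_decide.2 (H.adj_comm _ _)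
  · intro j i m hi hm
    have h1 := hb j i m (max m (b (i + 1) + k)) hi hm (le_trans hm (le_max_left _ _))
    have h2 := hb (i + 1) i (b (i + 1) + k) (max m (b (i + 1) + k)) (hbi i) le_rfl
      (le_max_right _ _)
    exact decide_eq_decide.2 (h1.trans h2.symm)

/-- Enumerations of the graphs of bounded interface: the vertices below b j have, in the row of
i, the constant value t i from b j + k on. -/
theorem exists_enum {W : Type*} [Countable W] {H : SimpleGraph W} {k : ℕ}
    (h : Interface H k) :
    ∃ (f : W → ℕ) (A : ℕ → ℕ → Bool) (b : ℕ → ℕ) (t : ℕ → Bool), Function.Injective f ∧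
      (∀ u v, H.Adj u v ↔ A (f u) (f v) = true) ∧ (∀ i m, A i m = A m i) ∧
      b 0 = 0 ∧ (∀ j, b j < b (j + 1)) ∧ (∀ j, b j + k ≤ b (j + 1)) ∧
      ∀ j i m, i < b j → b j + k ≤ m → A i m = t i := by
  classical
  rcases finite_or_infinite W with hW | hW
  · -- add isolated vertices
    have hfin := Fintype.ofFinite W
    let H' : SimpleGraph (W ⊕ ℕ) := H.map Function.Embedding.inl
    have hadj : ∀ u v, H'.Adj (Sum.inl u) (Sum.inl v) ↔ H.Adj u v := fun u v =>
      SimpleGraph.map_adj_apply
    have hno : ∀ (n : ℕ) (x : W ⊕ ℕ), ¬ H'.Adj (Sum.inr n) x := by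
      intro n x hx
      rw [SimpleGraph.map_adj] at hx
      obtain ⟨u, v, -, h1, -⟩ := hx
      cases h1
    have hI : Interface H' k := by
      intro F
      refine ⟨F ∪ Finset.univ.map Function.Embedding.inl, ∅, Finset.subset_union_left,
        by simp, ?_⟩
      intro u hu v w hv _ hw _
      have h1 : ∀ v : W ⊕ ℕ, v ∉ F ∪ Finset.univ.map Function.Embedding.inl →
          ∃ n, v = Sum.inr n := by
        intro v hv
        rcases v with v | n
        · exfalso
          apply hv
          rw [Finset.mem_union]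
          exact Or.inr (Finset.mem_map.2 ⟨v, Finset.mem_univ _, rfl⟩)
        · exact ⟨n, rfl⟩
      obtain ⟨n, rfl⟩ := h1 v hv
      obtain ⟨n', rfl⟩ := h1 w hw
      exact ⟨fun h => absurd h (hno _ _), fun h => absurd h (hno _ _)⟩
    obtain ⟨f, A, b, t, hf, hA, h1⟩ := enum_aux hI
    refine ⟨fun w => f (Sum.inl w), A, b, t, hf.comp Sum.inl_injective, ?_, h1⟩
    intro u v
    rw [← hadj]
    exact hA _ _
  · exact enum_aux h

end Pool.Agent.RKP
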