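import Pool.Agent.RKP.Enum

/-!
Examples of graphs of bounded interface.
-/

set_option autoImplicit false

namespace Pool.Agent.RKP

/-- Every vertex is joined to all or to none of the vertices at distance more than k after it. -/
theorem interface_of_type (H : SimpleGraph ℕ) (k : ℕ) (P : ℕ → Prop)
    (h : ∀ i j, i + k < j → (H.Adj i j ↔ P i)) : Interface H k := by
  intro F
  obtain ⟨n, hn⟩ : ∃ n, ∀ x ∈ F, x < n :=
    ⟨F.sup id + 1, fun x hx => Nat.lt_succ_of_le (Finset.le_sup (f := id) hx)⟩
  refine ⟨Finset.range n, Finset.Ico n (n + k), fun x hx => Finset.mem_range.2 (hn x hx), ?_, ?_⟩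
  · simp
  · intro u hu v w hv hv' hw hw'
    rw [Finset.mem_range] at hu hv hw
    rw [Finset.mem_Ico] at hv' hw'
    rw [H.adj_comm v u, H.adj_comm w u, h u v (by omega), h u w (by omega)]

/-- The complement has the same interface. -/
theorem interface_compl {W : Type*} (H : SimpleGraph W) (k : ℕ) (h : Interface H k) :
    Interface Hᶜ k := by
  intro F
  obtain ⟨S, E, h1, h2, h3⟩ := h F
  refine ⟨S, E, h1, h2, fun u hu v w hv hv' hw hw' => ?_⟩
  have hvu : v ≠ u := fun e => hv (e ▸ hu)
  have hwu : w ≠ u := fun e => hw (e ▸ hu)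
  rw [SimpleGraph.compl_adj, SimpleGraph.compl_adj, h3 u hu v w hv hv' hw hw']
  tauto

end Pool.Agent.RKP
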