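import Pool.Agent.RKH.ER

/-!
End homogeneity and the Erdos-Rado theorem for tuples, in the form of an embedding: for every
type K of colours, every m and every well ordered R there is a well ordered X such that every
K-colouring of the increasing m-tuples of X is constant on the m-tuples of a copy of R.
-/

set_option autoImplicit false

open Cardinal Order

namespace Pool.Agent.RKP

open Pool.Agent.RKH

universe u

/-- arities -/
private def ArT (R T : Type u) : Option T → Type u
  | none => PEmpty
  | some _ => R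

private theorem card_WT (R T : Type u) (hR : ℵ₀ ≤ #R) (hT : #T ≤ 2 ^ #R) :
    #(WType (ArT R T)) ≤ 2 ^ #R := by
  have hinf : ℵ₀ ≤ (2 : Cardinal) ^ #R := hR.trans (cantor _).le
  have hRR : #R * #R = #R := mul_eq_self hR
  have hOpt : #(Option T) ≤ 2 ^ #R := by
    rw [mk_option]
    exact add_le_of_le hinf hT (one_le_aleph0.trans hinf)
  apply WType.cardinalMk_le_of_le
  refine (sum_le_sum _ (fun _ => 2 ^ #R) ?_).trans ?_
  · intro a
    cases a with
    | none =>
      change (2 ^ #R) ^ #PEmpty ≤ _
      simp only [mk_eq_zero, power_zero]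
      exact one_le_aleph0.trans hinf
    | some t =>
      change (2 ^ #R) ^ #R ≤ _
      rw [← power_mul, hRR]
  · rw [sum_const', mul_comm]
    exact mul_le_of_le hinf le_rfl hOpt

/-- closure under types -/
theorem exists_closed_T {R X T : Type u} [LinearOrder X] (x0 : X) (hR : ℵ₀ ≤ #R)
    (hT : #T ≤ 2 ^ #R) (P : (R → X) → X → T) : ∃ C : Set X, #C ≤ 2 ^ #R ∧ x0 ∈ C ∧
      ∀ (sg : R → X) (y : X), (∀ r, sg r ∈ C) → (∀ r, sg r < y) →
        ∃ x ∈ C, (∀ r, sg r < x) ∧ P sg x = P sg y := by
  classical
  let ev : (Σ a : Option T, ArT R T a → X) → X := fun p =>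
    match p with
    | ⟨none, _⟩ => x0
    | ⟨some t, sg⟩ => if h : ∃ x, (∀ r : R, sg r < x) ∧ P sg x = t then h.choose else x0
  let E : WType (ArT R T) → X := WType.elim X ev
  refine ⟨Set.range E, ?_, ?_, ?_⟩
  · exact mk_range_le.trans (card_WT R T hR hT)
  · exact ⟨WType.mk none (fun e => e.elim), rfl⟩
  · intro sg y hsg hy
    choose t ht using hsg
    have hT' : ∃ x, (∀ r : R, sg r < x) ∧ P sg x = P sg y := ⟨y, hy, rfl⟩
    have hE : E (WType.mk (some (P sg y)) t) = hT'.choose := by
      have e1 : E (WType.mk (some (P sg y)) t) = ev ⟨some (P sg y), fun r : R => E (t r)⟩ := rfl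
      have e2 : (fun r : R => E (t r)) = sg := funext ht
      have e3 : ev ⟨some (P sg y), fun r : R => E (t r)⟩ = ev ⟨some (P sg y), sg⟩ := by
        rw [e2]
      have e4 : ev ⟨some (P sg y), sg⟩ = (if h : ∃ x, (∀ r : R, sg r < x) ∧
        P sg x = P sg y then h.choose else x0) := rfl
      rw [e1, e3, e4, dif_pos hT']
    refine ⟨_, ⟨WType.mk (some (P sg y)) t, rfl⟩, ?_⟩
    rw [hE]
    exact hT'.choose_spec

theorem end_homog_m {R X K : Type u} [LinearOrder X] (m : ℕ) (hR : ℵ₀ ≤ #R)
    (hK : #K ≤ 2 ^ #R) (hb : ∀ S : Set X, #S ≤ 2 ^ #R → ∃ z, ∀ s ∈ S, s < z)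
    (Q : (Fin m → X) → X → K) :
    ∃ (z : X) (x : (succ #R).ord.ToType → X), StrictMono x ∧
      ∀ (xi : Fin m → (succ #R).ord.ToType) (eta : (succ #R).ord.ToType),
        (∀ r, xi r < eta) → Q (fun r => x (xi r)) (x eta) = Q (fun r => x (xi r)) z := by
  classical
  obtain ⟨x0, -⟩ := hb ∅ (by simp)
  have hT : #((Fin m → R) → K) ≤ 2 ^ #R := by
    have h1 : #(Fin m → R) ≤ #R := by
      have h0 : #(Fin m → R) = #R ^ m := by
        have : #(Fin m → R) = #(ULift.{u} (Fin m) → R) :=
          mk_congr (Equiv.arrowCongr Equiv.ulift.symm (Equiv.refl R))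
        rw [this, ← power_def, mk_uLift, mk_fin, lift_natCast, power_natCast]
      rw [h0]
      exact power_nat_le hR
    calc #((Fin m → R) → K) = #K ^ #(Fin m → R) := by simp
      _ ≤ (2 ^ #R) ^ #(Fin m → R) := power_le_power_right hK
      _ = 2 ^ (#R * #(Fin m → R)) := by rw [← power_mul]
      _ ≤ 2 ^ #R := by
        refine power_le_power_left two_ne_zero ?_
        exact mul_le_of_le hR le_rfl h1
  obtain ⟨C, hC, hx0, hcl⟩ := exists_closed_T (R := R) x0 hR hT
    (fun sg x => fun u : Fin m → R => Q (fun r => sg (u r)) x)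
  obtain ⟨z, hz⟩ := hb C hC
  have hrec := exists_rec (Th := (succ #R).ord.ToType) (C := C) (· < ·) wellFounded_lt
    (fun xi g c => (∀ eta (h : eta < xi), ((g eta h : C) : X) < c) ∧
      ∀ (v : Fin m → (succ #R).ord.ToType) (hv : ∀ r, v r < xi),
        Q (fun r => (g (v r) (hv r) : C)) c = Q (fun r => (g (v r) (hv r) : C)) z) ?_
  · obtain ⟨x, hx⟩ := hrec
    refine ⟨z, fun xi => x xi, ?_, ?_⟩
    · intro a b hab
      exact (hx b).1 a hab
    · intro xi eta h
      exact (hx eta).2 xi h
  · intro xi g
    by_cases hne : Nonempty (Set.Iio xi)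
    · have hle : #(Set.Iio xi) ≤ #R := mk_Iio_le _ xi
      obtain ⟨emb⟩ := (Cardinal.le_def _ _).mp hle
      have hsurj : Function.Surjective (Function.invFun emb) :=
        Function.invFun_surjective emb.injective
      let s : R → Set.Iio xi := Function.invFun emb
      obtain ⟨x, hxC, hx1, hx2⟩ := hcl (fun r => (g (s r).1 (s r).2 : C)) z
        (fun r => (g (s r).1 (s r).2).2) (fun r => hz _ (g (s r).1 (s r).2).2)
      refine ⟨⟨x, hxC⟩, ?_, ?_⟩
      · intro eta h
        obtain ⟨r, hr⟩ := hsurj ⟨eta, h⟩
        have hr1 : s r = ⟨eta, h⟩ := hr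
        have := hx1 r
        simp only [hr1] at this
        exact this
      · intro v hv
        choose w hw using fun r => hsurj ⟨v r, hv r⟩
        have hw1 : ∀ r, s (w r) = ⟨v r, hv r⟩ := hw
        have := congrFun hx2 w
        simp only [hw1] at this
        exact this
    · obtain ⟨x, hxC, hx1, hx2⟩ := hcl (fun _ => x0) z (fun _ => hx0) (fun _ => hz _ hx0)
      refine ⟨⟨x, hxC⟩, ?_, ?_⟩
      · intro eta h
        exact absurd ⟨⟨eta, h⟩⟩ hne
      · intro v hv
        have hem : IsEmpty (Fin m) := ⟨fun r => hne ⟨⟨v r, hv r⟩⟩⟩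
        have := congrFun hx2 (fun r => hem.elim r)
        have e1 : (fun r => ((g (v r) (hv r) : C) : X)) = fun _ => x0 :=
          funext fun r => hem.elim r
        rw [e1]
        exact this

/-- Erdos-Rado for m-tuples. -/
theorem er_m (m : ℕ) (K R : Type u) [LinearOrder R] [WellFoundedLT R] :
    ∃ (X : Type u) (_ : LinearOrder X) (_ : WellFoundedLT X),
      ∀ Q : (Fin m → X) → K, ∃ (io : R → X) (k : K), StrictMono io ∧
        ∀ t : Fin m → R, StrictMono t → Q (fun r => io (t r)) = k := by
  classical
  induction m with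
  | zero =>
    refine ⟨R, inferInstance, inferInstance, fun Q => ⟨id, Q (fun r => r.elim0), strictMono_id,
      fun t _ => ?_⟩⟩
    congr 1
    funext r
    exact r.elim0
  | succ m ih =>
    obtain ⟨Y, iY1, iY2, hY⟩ := ih
    let M : Type u := ULift.{u} ℕ ⊕ (K ⊕ Y)
    have hM : ℵ₀ ≤ #M := by
      have h0 : #(ULift.{u} ℕ) ≤ #M := mk_le_of_injective (f := Sum.inl) Sum.inl_injective
      have h1 : #(ULift.{u} ℕ) = ℵ₀ := by simp
      rw [← h1]
      exact h0
    have hKM : #K ≤ #M :=
      mk_le_of_injective (f := fun k => Sum.inr (Sum.inl k))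
        (Sum.inr_injective.comp Sum.inl_injective)
    have hYM : #Y ≤ #M :=
      mk_le_of_injective (f := fun k => Sum.inr (Sum.inr k))
        (Sum.inr_injective.comp Sum.inr_injective)
    have hP : ℵ₀ ≤ (2 : Cardinal.{u}) ^ #M := hM.trans (cantor _).le
    refine ⟨(succ ((2 : Cardinal.{u}) ^ #M)).ord.ToType, inferInstance, inferInstance, ?_⟩
    intro Q
    obtain ⟨z, x, hmono, hx⟩ := end_homog_m (R := M) (K := K) m hM (hKM.trans (cantor _).le)
      (fun S hS => bdd_of_small hP S hS) (fun t s => Q (Fin.snoc (α := fun _ => _) t s))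
    have hemb : Nonempty (Y ≤i (succ #M).ord.ToType) := by
      rcases InitialSeg.total (· < · : Y → Y → Prop)
        (· < · : (succ #M).ord.ToType → (succ #M).ord.ToType → Prop) with h | h
      · exact ⟨h⟩
      · exfalso
        have h1 : #((succ #M).ord.ToType) ≤ #Y := mk_le_of_injective h.injective
        have h2 : #((succ #M).ord.ToType) = succ #M := by simp
        rw [h2] at h1
        exact absurd (h1.trans hYM) (not_le.mpr (lt_succ _))
    obtain ⟨em⟩ := hemb
    obtain ⟨io, k, hio, hk⟩ := hY (fun t => Q (Fin.snoc (α := fun _ => _)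
      (fun r => x (em (t r))) z))
    refine ⟨fun r => x (em (io r)), k, ?_, ?_⟩
    · intro a b hab
      exact hmono (em.strictMono (hio hab))
    · intro t ht
      have e1 : (fun r => x (em (io (t r)))) = Fin.snoc (α := fun _ => _)
          (fun r : Fin m => x (em (io (t r.castSucc)))) (x (em (io (t (Fin.last m))))) := by
        funext r
        refine Fin.lastCases ?_ (fun r => ?_) r
        · rw [Fin.snoc_last]
        · rw [Fin.snoc_castSucc]
      rw [e1]
      have h2 := hx (fun r : Fin m => em (io (t r.castSucc))) (em (io (t (Fin.last m)))) (by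
        intro r
        exact em.strictMono (hio (ht (Fin.castSucc_lt_last r))))
      rw [h2]
      exact hk (fun r => t r.castSucc) (fun a b hab => ht (by simpa using hab))

/-- Erdos-Rado for pairs of m-tuples. -/
theorem er_two (m : ℕ) (K R : Type u) [LinearOrder R] [WellFoundedLT R] :
    ∃ (X : Type u) (_ : LinearOrder X) (_ : WellFoundedLT X),
      ∀ Q : (Fin m → X) → (Fin m → X) → K, ∃ (io : R → X) (k : K), StrictMono io ∧
        ∀ a b : Fin m → R, StrictMono a → StrictMono b → (∀ r s, a r < b s) →
          Q (fun r => io (a r)) (fun r => io (b r)) = k := by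
  obtain ⟨X, i1, i2, hX⟩ := er_m (m + m) K R
  refine ⟨X, i1, i2, fun Q => ?_⟩
  obtain ⟨io, k, hio, hk⟩ := hX (fun t => Q (fun r => t (Fin.castAdd m r))
    (fun r => t (Fin.natAdd m r)))
  refine ⟨io, k, hio, fun a b ha hb hab => ?_⟩
  have h1 := hk (Fin.append a b) (by
    intro r s hrs
    induction r using Fin.addCases with
    | left r =>
      induction s using Fin.addCases with
      | left s =>
        rw [Fin.append_left, Fin.append_left]
        exact ha (show r.val < s.val from hrs)
      | right s =>
        rw [Fin.append_left, Fin.append_right]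
        exact hab r s
    | right r =>
      induction s using Fin.addCases with
      | left s =>
        exfalso
        have h2 : m + r.val < s.val := hrs
        have h3 := s.isLt
        omega
      | right s =>
        rw [Fin.append_right, Fin.append_right]
        refine hb ?_
        have h2 : m + r.val < m + s.val := hrs
        change r.val < s.val
        omega)
  simp only [Fin.append_left, Fin.append_right] at h1
  exact h1

end Pool.Agent.RKP
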