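import Pool.Agent.RKH.ER
import Pool.Agent.RKH.Uni

/-!
The system lemma: a set `N` of at most `2 ^ μ` vertices of the universal graph and
`(2 ^ μ)⁺` vertices `y σ` outside `N` such that every `y τ` is followed by vertices of `N`: for
every set `A` of at most `μ` vertices of `N` and all prescribed adjacencies to at most `μ` vertices
`y σ` there is a vertex of `N` which has the same relation and colour to the vertices of `A` as
`y τ` and the prescribed adjacencies.
-/

set_option autoImplicit false

open Cardinal Order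

namespace Pool.Agent.RKP

universe u

open Pool.Agent.RKH

open Classical in
/-- the follower property -/
def SysP {C V T : Type u} (M : Type u) (D : V → V → Option (Bool × C)) (N : Set V)
    (y : T → V) : Prop :=
  ∀ (τ : T) (A : Set V), A ⊆ N → #A ≤ #M → ∀ T0 : Set T, #T0 ≤ #M → ∀ Z : Set T,
    ∃ v ∈ N, (∀ a ∈ A, D a v = D a (y τ)) ∧
      ∀ σ ∈ T0, ∃ c : C, D v (y σ) = some (decide (σ ∈ Z), c)

/-! ### selection of distinct points -/

/-- distinct representatives -/
private theorem select {J V : Type u} (k : Cardinal.{u}) (hJ : #J ≤ k) (B : J → Set V)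
    (hB : ∀ j, k ≤ #(B j)) : ∃ s : J → V, Function.Injective s ∧ ∀ j, s j ∈ B j := by
  classical
  have h1 : #J ≤ #(k.ord.ToType) := by simpa using hJ
  obtain ⟨em⟩ := (Cardinal.le_def _ _).mp h1
  let r : J → J → Prop := fun i j => em i < em j
  have wf : WellFounded r := InvImage.wf em wellFounded_lt
  obtain ⟨s, hs⟩ := exists_rec (Th := J) (C := V) r wf
    (fun j g c => c ∈ B j ∧ ∀ i (h : r i j), g i h ≠ c) (by
      intro j g
      by_contra hcon
      push Not at hcon
      have h2 : B j ⊆ Set.range (fun i : {i // r i j} => g i.1 i.2) := by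
        intro c hc
        obtain ⟨i, hi, h3⟩ := hcon c hc
        exact ⟨⟨i, hi⟩, h3⟩
      have h3 : #(B j) ≤ #{i // r i j} := (mk_le_mk_of_subset h2).trans mk_range_le
      have h4 : #{i // r i j} ≤ #(Set.Iio (em j)) :=
        mk_le_of_injective (f := fun i : {i // r i j} => (⟨em i.1, i.2⟩ : Set.Iio (em j)))
          (fun a b h => Subtype.ext (em.injective (congrArg Subtype.val h)))
      have h5 : #(Set.Iio (em j)) < k := by
        have := Cardinal.mk_Iio_lt (em j) (by simp)
        simpa using this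
      exact absurd ((hB j).trans (h3.trans h4)) (not_le.mpr h5))
  refine ⟨s, ?_, fun j => (hs j).1⟩
  intro i j hij
  rcases lt_trichotomy (em i) (em j) with h | h | h
  · exact absurd hij ((hs j).2 i h)
  · exact em.injective h
  · exact absurd hij.symm ((hs i).2 j h)

/-! ### the independent family -/

/-- the points of the independent family -/
private abbrev Pt (M : Type u) : Type u := (M × M → Set M) × (M → Option (Set (M × M)))

/-- membership -/
private def Inn {M T : Type u} (e : T → Set (Set M)) (x : Pt M) (σ : T) : Prop :=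
  ∃ r, x.2 r = some {q | x.1 q ∈ e σ}

private theorem indep {M T : Type u} (e : T → Set (Set M)) (he : Function.Injective e)
    (T0 : Set T) (hT0 : #T0 ≤ #M) (Z : Set T) : ∃ x : Pt M, ∀ σ ∈ T0, Inn e x σ ↔ σ ∈ Z := by
  classical
  rcases T0.eq_empty_or_nonempty with h0 | hne
  · refine ⟨(fun _ => ∅, fun _ => none), fun σ hσ => ?_⟩
    rw [h0] at hσ
    exact absurd hσ (Set.notMem_empty σ)
  · obtain ⟨em⟩ := (Cardinal.le_def _ _).mp hT0
    have : Nonempty T0 := hne.to_subtype
    let s : M → T0 := Function.invFun em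
    have hs : Function.Surjective s := Function.invFun_surjective em.injective
    have hex : ∀ q : M × M, ∃ z : Set M, (s q.1).1 ≠ (s q.2).1 →
        ¬ (z ∈ e (s q.1).1 ↔ z ∈ e (s q.2).1) := by
      intro q
      by_cases h : (s q.1).1 = (s q.2).1
      · exact ⟨∅, fun h' => absurd h h'⟩
      · by_contra hcon
        push Not at hcon
        refine h (he (Set.ext fun z => ?_))
        exact (hcon z).2
    choose b hb using hex
    refine ⟨(b, fun r => if (s r).1 ∈ Z then some {q | b q ∈ e (s r).1} else none), ?_⟩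
    intro σ hσ
    obtain ⟨m, hm⟩ := hs ⟨σ, hσ⟩
    have hm' : (s m).1 = σ := by rw [hm]
    constructor
    · rintro ⟨r, hr⟩
      simp only at hr
      by_cases hZ : (s r).1 ∈ Z
      · rw [if_pos hZ] at hr
        have h1 : {q | b q ∈ e (s r).1} = {q | b q ∈ e σ} := Option.some.inj hr
        by_cases h2 : (s r).1 = σ
        · rwa [← h2]
        · exfalso
          have h3 := hb (r, m) (by simpa [hm'] using h2)
          apply h3
          have h4 := Set.ext_iff.1 h1 (r, m)
          simp only [Set.mem_ofPred_eq] at h4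
          simpa [hm'] using h4
      · rw [if_neg hZ] at hr
        exact absurd hr (by simp)
    · intro hZ
      refine ⟨m, ?_⟩
      simp only
      rw [hm', if_pos hZ]

/-! ### the closed set -/

section closed

variable {C V M : Type u}

/-- the colours of the codes -/
private abbrev KK (C : Type u) : Type u := Option (Bool × C) × Bool

/-- the index type -/
private abbrev II (C M : Type u) : Type u := WType (Ar M (KK C))

/-- the vertices with given relations to given vertices -/
private def Vp (D : V → V → Option (Bool × C)) (a : M → V) (p : M → Option (Bool × C)) : Set V :=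
  {v | ∀ m, D (a m) v = p m}

open Classical in
/-- many vertices with given relations to given vertices -/
private noncomputable def Op (D : V → V → Option (Bool × C)) (x0 : V) (a : M → V)
    (p : M → Option (Bool × C)) : Set M → V :=
  if h : ∃ f : Set M → V, Function.Injective f ∧ ∀ z, f z ∈ Vp D a p then h.choose
  else if h : ∃ f : Set M → V, ∀ v ∈ Vp D a p, ∃ z, f z = v then h.choose
  else fun _ => x0

private theorem Op_cases (D : V → V → Option (Bool × C)) (x0 : V) (a : M → V)
    (p : M → Option (Bool × C)) :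
    (Function.Injective (Op D x0 a p) ∧ ∀ z, Op D x0 a p z ∈ Vp D a p) ∨
      ∀ v ∈ Vp D a p, ∃ z, Op D x0 a p z = v := by
  classical
  by_cases h : ∃ f : Set M → V, Function.Injective f ∧ ∀ z, f z ∈ Vp D a p
  · left
    rw [Op, dif_pos h]
    exact h.choose_spec
  · right
    have h2 : ∃ f : Set M → V, ∀ v ∈ Vp D a p, ∃ z, f z = v := by
      rcases le_total (#(Set M)) (#(Vp D a p)) with h3 | h3
      · exfalso
        apply h
        obtain ⟨em⟩ := (Cardinal.le_def _ _).mp h3
        exact ⟨fun z => (em z).1, Subtype.val_injective.comp em.injective, fun z => (em z).2⟩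
      · obtain ⟨em⟩ := (Cardinal.le_def _ _).mp h3
        rcases (Vp D a p).eq_empty_or_nonempty with h4 | h4
        · exact ⟨fun _ => x0, fun v hv => by rw [h4] at hv; exact absurd hv (Set.notMem_empty v)⟩
        · have : Nonempty (Vp D a p) := h4.to_subtype
          refine ⟨fun z => (Function.invFun em z).1, fun v hv => ?_⟩
          obtain ⟨z, hz⟩ := Function.invFun_surjective em.injective ⟨v, hv⟩
          refine ⟨z, ?_⟩
          show (Function.invFun em z).1 = v
          rw [hz]
    rw [Op, dif_neg h, dif_pos h2]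
    exact h2.choose_spec

/-- evaluation of codes -/
private noncomputable def ev (D : V → V → Option (Bool × C)) (x0 : V) :
    (Σ a : Option (M → KK C), Ar M (KK C) a → V) → V
  | ⟨none, _⟩ => x0
  | ⟨some t, sg⟩ => Op D x0 (M := M) sg (fun m => (t m).1) {m | (t m).2 = true}

/-- the values of the codes -/
private noncomputable def EE (D : V → V → Option (Bool × C)) (x0 : V) : II C M → V :=
  WType.elim V (ev D x0)

private theorem EE_closed (D : V → V → Option (Bool × C)) (x0 : V) (a : M → V)
    (ha : ∀ m, a m ∈ Set.range (EE (M := M) D x0)) (p : M → Option (Bool × C)) (z : Set M) :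
    Op D x0 a p z ∈ Set.range (EE (M := M) D x0) := by
  classical
  choose t ht using ha
  refine ⟨WType.mk (some fun m => (p m, decide (m ∈ z))) t, ?_⟩
  have e1 : EE (M := M) D x0 (WType.mk (some fun m => (p m, decide (m ∈ z))) t) =
      ev D x0 ⟨some fun m => (p m, decide (m ∈ z)), fun r : M => EE D x0 (t r)⟩ := rfl
  have e2 : (fun r : M => EE D x0 (t r)) = a := funext ht
  have e3 : ev D x0 ⟨some fun m => (p m, decide (m ∈ z)), fun r : M => EE D x0 (t r)⟩ =
      ev D x0 ⟨some fun m => (p m, decide (m ∈ z)), a⟩ := by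
    rw [e2]
  have e4 : ev D x0 ⟨some fun m => (p m, decide (m ∈ z)), a⟩ =
      Op D x0 a p {m | decide (m ∈ z) = true} := rfl
  have e5 : {m | decide (m ∈ z) = true} = z := by
    ext m
    simp
  rw [e1, e3, e4, e5]

end closed

/-! ### the theorem -/

private theorem card_fun {M X : Type u} (hM : ℵ₀ ≤ #M) (hX : #X ≤ 2 ^ #M) :
    #(M → X) ≤ 2 ^ #M := by
  calc #(M → X) = #X ^ #M := by simp
    _ ≤ (2 ^ #M) ^ #M := power_le_power_right hX
    _ = 2 ^ #M := by rw [← power_mul, mul_eq_self hM]

theorem sysN (C M : Type u) (hM : ℵ₀ ≤ #M) (hC : #C ≤ #M) :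
    ∃ (V : Type u) (G : SimpleGraph V), ∀ (D : V → V → Option (Bool × C)),
      (∀ x y, x ≠ y → ∃ (b : Bool) (c : C), D x y = some (b, c) ∧ (b = true ↔ G.Adj x y)) →
      ∃ (N : Set V) (y : (succ ((2 : Cardinal.{u}) ^ #M)).ord.ToType → V),
        #N ≤ 2 ^ #M ∧ SysP M D N y := by
  classical
  have hP : ℵ₀ ≤ (2 : Cardinal.{u}) ^ #M := hM.trans (cantor _).le
  have hMP : #M ≤ (2 : Cardinal.{u}) ^ #M := (cantor _).le
  have hK0 : #(Option (Bool × C)) ≤ 2 ^ #M := by
    rw [mk_option, mk_prod]
    refine add_le_of_le hP ?_ (one_le_aleph0.trans hP)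
    refine mul_le_of_le hP ?_ ?_
    · simp only [mk_fintype, Fintype.card_bool, Nat.cast_ofNat, lift_ofNat]
      exact (natCast_lt_aleph0 (n := 2)).le.trans hP
    · rw [lift_id']
      simpa using hC.trans hMP
  have hKK : #(KK C) ≤ 2 ^ #M := by
    rw [mk_prod]
    refine mul_le_of_le hP (by simpa using hK0) ?_
    simp only [mk_fintype, Fintype.card_bool, Nat.cast_ofNat, lift_ofNat]
    exact (natCast_lt_aleph0 (n := 2)).le.trans hP
  have hSM : #(Set M) ≤ 2 ^ #M := by simp
  have hPt : #(Pt M) ≤ 2 ^ #M := by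
    rw [mk_prod, lift_id, lift_id]
    refine mul_le_of_le hP ?_ ?_
    · calc #(M × M → Set M) = #(Set M) ^ #(M × M) := by simp
        _ ≤ (2 ^ #M) ^ #(M × M) := power_le_power_right hSM
        _ = 2 ^ #M := by
            rw [← power_mul, mk_prod, lift_id, mul_eq_self hM, mul_eq_self hM]
    · refine card_fun hM ?_
      rw [mk_option]
      refine add_le_of_le hP ?_ (one_le_aleph0.trans hP)
      rw [mk_set, mk_prod, lift_id, mul_eq_self hM]
  refine ⟨UV (II C M), UG (II C M), ?_⟩
  intro D hD
  let x0 : UV (II C M) := UV.leaf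
  let E : II C M → UV (II C M) := EE D x0
  let N : Set (UV (II C M)) := Set.range E
  have hN : #N ≤ 2 ^ #M := mk_range_le.trans (card_W M (KK C) hM hKK)
  have hx0 : x0 ∈ N := ⟨WType.mk none (fun e => e.elim), rfl⟩
  -- the selection
  let J0 : Type u := {ap : (M → N) × (M → Option (Bool × C)) //
    (2 : Cardinal.{u}) ^ #M ≤ #(Vp D (fun m => (ap.1 m).1) ap.2 ∩ N : Set _)}
  let J : Type u := J0 × Pt M
  have hJ : #J ≤ 2 ^ #M := by
    rw [mk_prod, lift_id, lift_id]
    refine mul_le_of_le hP ((mk_subtype_le _).trans ?_) hPt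
    rw [mk_prod, lift_id, lift_id]
    exact mul_le_of_le hP (card_fun hM hN) (card_fun hM hK0)
  obtain ⟨s, hsinj, hs⟩ := select ((2 : Cardinal.{u}) ^ #M) hJ
    (fun j : J => Vp D (fun m => (j.1.1.1 m).1) j.1.1.2 ∩ N) (fun j => j.1.2)
  -- the independent family
  have hT : #((succ ((2 : Cardinal.{u}) ^ #M)).ord.ToType) ≤ #(Set (Set M)) := by
    have h1 : #((succ ((2 : Cardinal.{u}) ^ #M)).ord.ToType) = succ ((2 : Cardinal.{u}) ^ #M) := by
      simp
    rw [h1, mk_set, mk_set]
    exact succ_le_of_lt (cantor _)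
  obtain ⟨e⟩ := (Cardinal.le_def _ _).mp hT
  have hy : ∀ τ, ∃ v : UV (II C M), v ∉ N ∧ ∀ w ∈ N, (UG (II C M)).Adj w v ↔
      ∃ j : J, w = s j ∧ Inn e j.2 τ := by
    intro τ
    obtain ⟨v, hv1, hv2⟩ := exists_ext E {i | ∃ j : J, E i = s j ∧ Inn e j.2 τ}
    refine ⟨v, ?_, ?_⟩
    · rintro ⟨i, hi⟩
      exact hv1 i hi.symm
    · rintro w ⟨i, rfl⟩
      rw [hv2 i]
      constructor
      · rintro ⟨i', ⟨j, h1, h2⟩, h3⟩
        exact ⟨j, h3.trans h1, h2⟩
      · rintro ⟨j, h1, h2⟩
        exact ⟨i, ⟨j, h1, h2⟩, rfl⟩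
  choose y hy1 hy2 using hy
  refine ⟨N, y, hN, ?_⟩
  intro τ A hA hAM T0 hT0 Z
  -- enumerate A
  obtain ⟨a, haN, haA⟩ : ∃ a : M → N, True ∧ ∀ v ∈ A, ∃ m, (a m).1 = v := by
    rcases A.eq_empty_or_nonempty with h0 | hne
    · exact ⟨fun _ => ⟨x0, hx0⟩, trivial, fun v hv => by
        rw [h0] at hv; exact absurd hv (Set.notMem_empty v)⟩
    · obtain ⟨em⟩ := (Cardinal.le_def _ _).mp hAM
      have : Nonempty A := hne.to_subtype
      refine ⟨fun m => ⟨(Function.invFun em m).1, hA (Function.invFun em m).2⟩, trivial, ?_⟩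
      intro v hv
      obtain ⟨m, hm⟩ := Function.invFun_surjective em.injective ⟨v, hv⟩
      exact ⟨m, by simp only [hm]⟩
  let p : M → Option (Bool × C) := fun m => D (a m).1 (y τ)
  have hyV : y τ ∈ Vp D (fun m => (a m).1) p := fun m => rfl
  have hbig : (2 : Cardinal.{u}) ^ #M ≤ #(Vp D (fun m => (a m).1) p ∩ N : Set _) := by
    rcases Op_cases D x0 (fun m => (a m).1) p with h | h
    · have h1 : #(Set M) ≤ #(Vp D (fun m => (a m).1) p ∩ N : Set _) :=
        mk_le_of_injective (f := fun z => (⟨Op D x0 (fun m => (a m).1) p z, h.2 z,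
          EE_closed D x0 _ (fun m => (a m).2) p z⟩ : (Vp D (fun m => (a m).1) p ∩ N : Set _)))
          (fun z z' hz => h.1 (congrArg Subtype.val hz))
      rwa [mk_set] at h1
    · exfalso
      obtain ⟨z, hz⟩ := h (y τ) hyV
      apply hy1 τ
      rw [← hz]
      exact EE_closed D x0 _ (fun m => (a m).2) p z
  obtain ⟨x, hx⟩ := indep e e.injective T0 hT0 Z
  let j : J := (⟨(a, p), hbig⟩, x)
  have hsj := hs j
  refine ⟨s j, hsj.2, ?_, ?_⟩
  · intro v hv
    obtain ⟨m, rfl⟩ := haA v hv
    exact hsj.1 m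
  · intro σ hσ
    have hne : s j ≠ y σ := fun h => hy1 σ (h ▸ hsj.2)
    obtain ⟨b, c, h1, h2⟩ := hD (s j) (y σ) hne
    refine ⟨c, ?_⟩
    rw [h1]
    have h3 : (UG (II C M)).Adj (s j) (y σ) ↔ σ ∈ Z := by
      rw [hy2 σ (s j) hsj.2, ← hx σ hσ]
      constructor
      · rintro ⟨j', h4, h5⟩
        have h6 := hsinj h4
        rw [← h6] at h5
        exact h5
      · intro h5
        exact ⟨j, rfl, h5⟩
    have h4 : b = decide (σ ∈ Z) := by
      rw [Bool.eq_iff_iff, decide_eq_true_iff, h2, h3]
    rw [h4]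

end Pool.Agent.RKP
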