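import Mathlib
import Pool.Agent.RKP.SysN

/-!
Partial copies and their ranks; partial copies of least rank which fit to given vertices.
-/

set_option autoImplicit false

open Cardinal Order

namespace Pool.Agent.RKP

universe u

section

variable {C V T : Type u} (D : V → V → Option (Bool × C)) (cc : Bool → C) (A : ℕ → ℕ → Bool)

/-- `F` is a copy of the first `n` vertices. -/
def Rea (n : ℕ) (F : ℕ → V) : Prop :=
  ∀ i m, i < m → m < n → D (F i) (F m) = some (A i m, cc (A i m))

/-- `s'` is a longer copy than `s`. -/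
def Lon (s' s : ℕ × (ℕ → V)) : Prop :=
  s.1 < s'.1 ∧ (∀ i, i < s.1 → s'.2 i = s.2 i) ∧ Rea D cc A s'.1 s'.2

theorem wf_Lon
    (h : ¬ ∃ F : ℕ → V, ∀ i m, i < m → D (F i) (F m) = some (A i m, cc (A i m))) :
    WellFounded (Lon D cc A) := by
  rw [wellFounded_iff_isEmpty_descending_chain]
  refine ⟨fun ⟨f, hf⟩ => h ?_⟩
  have hmono : StrictMono fun i => (f i).1 := strictMono_nat_of_lt_succ fun i => (hf i).1
  have h1 : ∀ i, i ≤ (f i).1 := fun i => hmono.le_apply
  have h2 : ∀ i j, i ≤ j → ∀ x, x < (f i).1 → (f j).2 x = (f i).2 x := by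
    intro i j hij
    induction hij with
    | refl => intro x _; rfl
    | @step j hij ih =>
      intro x hx
      rw [← ih x hx]
      exact (hf j).2.1 x (lt_of_lt_of_le hx (hmono.monotone hij))
  refine ⟨fun i => (f (i + 1)).2 i, fun i m him => ?_⟩
  have h3 : (f (m + 1)).2 i = (f (i + 1)).2 i :=
    h2 (i + 1) (m + 1) (by omega) i (h1 (i + 1))
  have h4 := (hf m).2.2 i m him (h1 (m + 1))
  rw [h3] at h4
  exact h4

theorem exists_rank
    (h : ¬ ∃ F : ℕ → V, ∀ i m, i < m → D (F i) (F m) = some (A i m, cc (A i m))) :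
    ∃ rk : ℕ × (ℕ → V) → Ordinal.{u}, ∀ s' s, Lon D cc A s' s → rk s' < rk s := by
  have hwf : IsWellFounded _ (Lon D cc A) := ⟨wf_Lon D cc A h⟩
  exact ⟨IsWellFounded.rank (Lon D cc A), fun s' s hs => IsWellFounded.rank_lt_of_rel hs⟩

/-- The sequence of vertices. -/
def fn {N : Set V} (F : ULift.{u} ℕ → N) : ℕ → V := fun i => (F ⟨i⟩ : V)

variable (b : ℕ → ℕ) (t : ℕ → Bool) (y : T → V) {k : ℕ}

/-- `F` is a copy of the first `b j` vertices, the vertex `y (u r)` has over it the type of the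
vertex `b j + r` and `y s` the type given by `t`. -/
def Fit (j : ℕ) (F : ℕ → V) (u : Fin k → T) (s : T) : Prop :=
  Rea D cc A (b j) F ∧
    (∀ i, i < b j → ∀ r : Fin k, D (F i) (y (u r)) =
      some (A i (b j + r.1), cc (A i (b j + r.1)))) ∧
    ∀ i, i < b j → D (F i) (y s) = some (t i, cc (t i))

/-- Copies of least rank. -/
theorem exists_least (N : Set V) (rk : ℕ × (ℕ → V) → Ordinal.{u}) :
    ∃ Phi : ℕ → (Fin k → T) → T → Option (ULift.{u} ℕ → N),
      (∀ j u s F, Phi j u s = some F → Fit D cc A b t y j (fn F) u s) ∧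
      (∀ j u s (G : ULift.{u} ℕ → N), Fit D cc A b t y j (fn G) u s →
        ∃ F, Phi j u s = some F ∧ rk (b j, fn F) ≤ rk (b j, fn G)) := by
  classical
  have h : ∀ (j : ℕ) (u : Fin k → T) (s : T), ∃ o : Option (ULift.{u} ℕ → N),
      (∀ F, o = some F → Fit D cc A b t y j (fn F) u s) ∧
      (∀ G : ULift.{u} ℕ → N, Fit D cc A b t y j (fn G) u s →
        ∃ F, o = some F ∧ rk (b j, fn F) ≤ rk (b j, fn G)) := by
    intro j u s
    by_cases hne : ∃ F : ULift.{u} ℕ → N, Fit D cc A b t y j (fn F) u s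
    · obtain ⟨F0, hF0⟩ := hne
      have hs : {o | ∃ F : ULift.{u} ℕ → N, Fit D cc A b t y j (fn F) u s ∧
          rk (b j, fn F) = o}.Nonempty := ⟨_, F0, hF0, rfl⟩
      obtain ⟨o, ⟨F, hF, hFo⟩, hmin⟩ := Ordinal.lt_wf.has_min _ hs
      refine ⟨some F, ?_, ?_⟩
      · intro F' hF'
        rw [← Option.some.inj hF']
        exact hF
      · intro G hG
        refine ⟨F, rfl, ?_⟩
        rw [hFo]
        exact not_lt.1 (hmin _ ⟨G, hG, rfl⟩)
    · refine ⟨none, ?_, ?_⟩
      · intro F hF
        cases hF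
      · intro G hG
        exact absurd ⟨G, hG⟩ hne
  choose Phi h1 h2 using h
  exact ⟨Phi, h1, h2⟩

end

/-- An infinite well order contains an increasing sequence. -/
theorem exists_seq (L : Type u) [LinearOrder L] [WellFoundedLT L]
    (h : ∀ n : ℕ, ∃ a : Fin n → L, StrictMono a) : ∃ f : ℕ → L, StrictMono f := by
  have hinf : Infinite L := by
    by_contra hfin
    rw [not_infinite_iff_finite] at hfin
    have := Fintype.ofFinite L
    obtain ⟨a, ha⟩ := h (Fintype.card L + 1)
    have h1 := Fintype.card_le_of_injective a ha.injective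
    rw [Fintype.card_fin] at h1
    omega
  obtain ⟨f, hf | hf⟩ := Infinite.exists_strictMono_or_strictAnti L
  · exact ⟨f, hf⟩
  · exfalso
    have h1 := (wellFounded_iff_isEmpty_descending_chain (r := fun a b : L => a < b)).1
      wellFounded_lt
    exact h1.false ⟨f, fun n => hf (Nat.lt_succ_self n)⟩

end Pool.Agent.RKP
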