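import Mathlib
import Pool.Agent.RKP.Rank

/-!
Same-type sums: the trunk (a copy of the earlier blocks which fits to a top), the tree of partial
copies of the next block over the trunk, partial copies of least rank.
-/

set_option autoImplicit false

open Cardinal Order

namespace Pool.Agent.RKP

open Pool.Agent.RKH

universe u

section

variable {C V T : Type u} (D : V → V → Option (Bool × C)) (cc : Bool → C)

/-- `s'` is a longer copy than `s`; the vertices are allowed by `R`. -/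
def LonR (A : ℕ → ℕ → Bool) (R : ℕ → V → Prop) (s' s : ℕ × (ℕ → V)) : Prop :=
  Lon D cc A s' s ∧ ∀ i, i < s'.1 → R i (s'.2 i)

theorem exists_rankR (A : ℕ → ℕ → Bool) (R : ℕ → V → Prop)
    (h : ¬ ∃ F : ℕ → V, (∀ i m, i < m → D (F i) (F m) = some (A i m, cc (A i m))) ∧
      ∀ i, R i (F i)) :
    ∃ rk : ℕ × (ℕ → V) → Ordinal.{u}, ∀ s' s, LonR D cc A R s' s → rk s' < rk s := by
  have hwf : IsWellFounded _ (LonR D cc A R) := ⟨by
    rw [wellFounded_iff_isEmpty_descending_chain]
    refine ⟨fun ⟨f, hf⟩ => h ?_⟩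
    have hmono : StrictMono fun i => (f i).1 := strictMono_nat_of_lt_succ fun i => (hf i).1.1
    have h1 : ∀ i, i ≤ (f i).1 := fun i => hmono.le_apply
    have h2 : ∀ i j, i ≤ j → ∀ x, x < (f i).1 → (f j).2 x = (f i).2 x := by
      intro i j hij
      induction hij with
      | refl => intro x _; rfl
      | @step j hij ih =>
        intro x hx
        rw [← ih x hx]
        exact (hf j).1.2.1 x (lt_of_lt_of_le hx (hmono.monotone hij))
    refine ⟨fun i => (f (i + 1)).2 i, fun i m him => ?_, fun i => (hf i).2 i (h1 (i + 1))⟩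
    have h3 : (f (m + 1)).2 i = (f (i + 1)).2 i :=
      h2 (i + 1) (m + 1) (by omega) i (h1 (i + 1))
    have h4 := (hf m).1.2.2 i m him (h1 (m + 1))
    rw [h3] at h4
    exact h4⟩
  exact ⟨IsWellFounded.rank (LonR D cc A R), fun s' s hs => IsWellFounded.rank_lt_of_rel hs⟩

variable {Th : Type u} [LinearOrder Th] (N : Set V)
  (A : Th → ℕ → ℕ → Bool) (b : Th → ℕ → ℕ) (t : Th → ℕ → Bool)

/-- The vertices allowed for the `i`-th vertex of the block `x`: in `N`, over the trunk `g`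
(blocks before `x`), fitting to `Y`. -/
def Alw (Y : V) (x : Th) (g : Th → ULift.{u} ℕ → N) (i : ℕ) (w : V) : Prop :=
  w ∈ N ∧ D w Y = some (t x i, cc (t x i)) ∧
    ∀ x', x' < x → ∀ i' : ULift.{u} ℕ, D (g x' i') w = some (t x' i'.down, cc (t x' i'.down))

/-- the trunk -/
theorem exists_trunk [WellFoundedLT Th] (v0 : N) (Y : V)
    (h : ¬ ∃ g : Th → ℕ → V, (∀ x i m, i < m → D (g x i) (g x m) = some (A x i m, cc (A x i m))) ∧
      ∀ x x', x < x' → ∀ i m, D (g x i) (g x' m) = some (t x i, cc (t x i))) :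
    ∃ (x : Th) (g : Th → ULift.{u} ℕ → N),
      (∀ x', x' < x → ∀ i : ULift.{u} ℕ, D (g x' i) Y = some (t x' i.down, cc (t x' i.down))) ∧
      ∃ rk : ℕ × (ℕ → V) → Ordinal.{u}, ∀ s' s,
        LonR D cc (A x) (Alw D cc N t Y x g) s' s → rk s' < rk s := by
  classical
  let Good : ∀ (x : Th) (g : ∀ x' : Th, x' < x → ULift.{u} ℕ → N) (F : ULift.{u} ℕ → N), Prop :=
    fun x g F => (∀ i m : ℕ, i < m → D (F ⟨i⟩) (F ⟨m⟩) = some (A x i m, cc (A x i m))) ∧
      (∀ i : ℕ, D (F ⟨i⟩) Y = some (t x i, cc (t x i))) ∧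
      ∀ x' (hx : x' < x) (i' m : ULift.{u} ℕ),
        D (g x' hx i') (F m) = some (t x' i'.down, cc (t x' i'.down))
  obtain ⟨v, hv⟩ := exists_rec (Th := Th) (C := ULift.{u} ℕ → N) (· < ·) wellFounded_lt
    (fun x g c => (∃ F, Good x g F) → Good x g c) (by
      intro x g
      by_cases hF : ∃ F, Good x g F
      · obtain ⟨F, hF⟩ := hF
        exact ⟨F, fun _ => hF⟩
      · exact ⟨fun _ => v0, fun h => absurd h hF⟩)
  by_cases hall : ∀ x, Good x (fun x' _ => v x') (v x)
  · refine absurd ⟨fun x i => (v x ⟨i⟩ : V), fun x i m him => (hall x).1 i m him, ?_⟩ h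
    intro x x' hxx i m
    exact (hall x').2.2 x hxx ⟨i⟩ ⟨m⟩
  · rw [not_forall] at hall
    obtain ⟨x, hx, hmin⟩ := wellFounded_lt.has_min
      {x : Th | ¬ Good x (fun x' _ => v x') (v x)} hall
    have hlt : ∀ x', x' < x → Good x' (fun x'' _ => v x'') (v x') := fun x' h1 =>
      by_contra fun h2 => hmin x' h2 h1
    refine ⟨x, v, fun x' h1 i => (hlt x' h1).2.1 i.down, exists_rankR D cc (A x) _ ?_⟩
    rintro ⟨F, hF, hR⟩
    refine hx (hv x ⟨fun i => ⟨F i.down, (hR i.down).1⟩, ?_, ?_, ?_⟩)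
    · intro i m him
      exact hF i m him
    · intro i
      exact (hR i).2.1
    · intro x' h1 i' m
      exact (hR m.down).2.2 x' h1 i'

variable (y : T → V) {k : ℕ}

/-- `F` is a copy of the first `b j` vertices of the block `th s` over the trunk `g s`, fitting
to `y s` and to the tuple `u`. -/
def FitS (th : T → Th) (g : T → Th → ULift.{u} ℕ → N) (j : ℕ) (F : ℕ → V) (u : Fin k → T)
    (s : T) : Prop :=
  Rea D cc (A (th s)) (b (th s) j) F ∧
    (∀ i, i < b (th s) j → ∀ r : Fin k, D (F i) (y (u r)) =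
      some (A (th s) i (b (th s) j + r.1), cc (A (th s) i (b (th s) j + r.1)))) ∧
    ∀ i, i < b (th s) j → Alw D cc N t (y s) (th s) (g s) i (F i)

/-- Copies of least rank. -/
theorem exists_leastS (th : T → Th) (g : T → Th → ULift.{u} ℕ → N)
    (rk : T → ℕ × (ℕ → V) → Ordinal.{u}) :
    ∃ Phi : ℕ → (Fin k → T) → T → Option (ULift.{u} ℕ → N),
      (∀ j u s F, Phi j u s = some F → FitS D cc N A b t y th g j (fn F) u s) ∧
      (∀ j u s (G : ULift.{u} ℕ → N), FitS D cc N A b t y th g j (fn G) u s →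
        ∃ F, Phi j u s = some F ∧ rk s (b (th s) j, fn F) ≤ rk s (b (th s) j, fn G)) := by
  classical
  have h : ∀ (j : ℕ) (u : Fin k → T) (s : T), ∃ o : Option (ULift.{u} ℕ → N),
      (∀ F, o = some F → FitS D cc N A b t y th g j (fn F) u s) ∧
      (∀ G : ULift.{u} ℕ → N, FitS D cc N A b t y th g j (fn G) u s →
        ∃ F, o = some F ∧ rk s (b (th s) j, fn F) ≤ rk s (b (th s) j, fn G)) := by
    intro j u s
    by_cases hne : ∃ F : ULift.{u} ℕ → N, FitS D cc N A b t y th g j (fn F) u s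
    · obtain ⟨F0, hF0⟩ := hne
      have hs : {o | ∃ F : ULift.{u} ℕ → N, FitS D cc N A b t y th g j (fn F) u s ∧
          rk s (b (th s) j, fn F) = o}.Nonempty := ⟨_, F0, hF0, rfl⟩
      obtain ⟨o, ⟨F, hF, hFo⟩, hmin⟩ := Ordinal.lt_wf.has_min _ hs
      refine ⟨some F, ?_, ?_⟩
      · intro F' hF'
        rw [← Option.some.inj hF']
        exact hF
      · intro G hG
        refine ⟨F, rfl, ?_⟩
        rw [hFo]
        exact not_lt.1 (hmin _ ⟨G, hG, rfl⟩)
    · refine ⟨none, ?_, ?_⟩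
      · intro F hF
        cases hF
      · intro G hG
        exact absurd ⟨G, hG⟩ hne
  choose Phi h1 h2 using h
  exact ⟨Phi, h1, h2⟩

end

end Pool.Agent.RKP
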