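import Mathlib
import Pool.Agent.RKP.Trunk
import Pool.Agent.RKP.Ram
import Pool.Agent.RKP.CoreL

/-!
The step for one block of a sum: a partial copy of least rank is extended over the trunk, so the
least rank (which depends on the top) decreases.
-/

set_option autoImplicit false

open Cardinal Order

namespace Pool.Agent.RKP

open Pool.Agent.RKH

universe u

/-- The step: a copy of least rank of the first `b j` vertices is extended to a copy of the first
`b (j + 1)` vertices, so the least rank decreases, for a suitable top. -/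
theorem stepL {C V L : Type u} [LinearOrder L] (D : V → V → Option (Bool × C)) (N : Set V)
    (y : L → V) (cc : Bool → C) (A : ℕ → ℕ → Bool) (b : ℕ → ℕ) (t : ℕ → Bool) {k : ℕ}
    (hb1 : ∀ j, b j < b (j + 1)) (hb2 : ∀ j, b j + k ≤ b (j + 1))
    (hA : ∀ j i m, i < b j → b j + k ≤ m → A i m = t i) (Ov : V → Prop)
    (rk : L → ℕ × (ℕ → V) → Ordinal.{u})
    (hrk : ∀ s p' p, LonR D cc A (fun i w => w ∈ N ∧ D w (y s) = some (t i, cc (t i)) ∧ Ov w)
      p' p → rk s p' < rk s p)
    (Psi : ℕ → (Fin k → L) → Option (ULift.{u} ℕ → N))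
    (h1 : ∀ j u F s, (∀ r, u r < s) → Psi j u = some F →
      Fit D cc A b t y j (fn F) u s ∧ ∀ i, i < b j → Ov (fn F i))
    (h2 : ∀ j u s (G : ULift.{u} ℕ → N), (∀ r, u r < s) →
      Fit D cc A b t y j (fn G) u s → (∀ i, i < b j → Ov (fn G i)) →
      ∃ F, Psi j u = some F ∧ rk s (b j, fn F) ≤ rk s (b j, fn G))
    (v : L → Set L → N) (c0 : L → Set L → L → C)
    (h3 : ∀ i M s, ∃ bb : Bool, (bb = true ↔ s ∈ M) ∧
      D (v i M) (y s) = some (bb, c0 i M s))
    (h4 : ∀ i M s M', i < s → D (v i M) (v s M') = D (v i M) (y s))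
    (h5 : ∀ j u F i x M, Psi j u = some F → D (fn F i) (v x M) = D (fn F i) (y x))
    (h6 : ∀ x M, Ov (v x M))
    (hc : ∀ (n : ℕ) (K : Fin n → Fin n → Bool), ∃ (a : Fin n → L) (M : Fin n → Set L),
      StrictMono a ∧ ∀ p q, p < q → (a q ∈ M p ↔ K p q = true) ∧
        c0 (a p) (M p) (a q) = cc (K p q))
    (j : ℕ) (hj : ∀ u w : Fin k → L, StrictMono u → StrictMono w → (∀ r s, u r < w s) →
      ∃ F, Psi j u = some F) :
    ∃ (u w w' : Fin k → L) (s : L), StrictMono u ∧ StrictMono w ∧ StrictMono w' ∧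
      (∀ r s, u r < w s) ∧ (∀ r s, w r < w' s) ∧ (∀ r, u r < s) ∧ (∀ r, w r < s) ∧
      ∃ F F', Psi j u = some F ∧ Psi (j + 1) w = some F' ∧
        rk s (b (j + 1), fn F') < rk s (b j, fn F) := by
  classical
  obtain ⟨l, hl⟩ : ∃ l, b (j + 1) = b j + l := ⟨b (j + 1) - b j, by have := hb1 j; omega⟩
  have hlk : k ≤ l := by have := hb2 j; omega
  have hl1 : 1 ≤ l := by have := hb1 j; omega
  obtain ⟨a, M, haM⟩ : ∃ (a : ℕ → L) (M : ℕ → Set L), ∀ p q, p < q → q < l + 2 * k + 1 →
      a p < a q ∧ (a q ∈ M p ↔ A (b j + p) (b j + q) = true) ∧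
        c0 (a p) (M p) (a q) = cc (A (b j + p) (b j + q)) := by
    obtain ⟨a, M, ha, hM⟩ := hc (l + 2 * k + 1) (fun p q => A (b j + p.1) (b j + q.1))
    refine ⟨fun p => if h : p < l + 2 * k + 1 then a ⟨p, h⟩ else a ⟨0, by omega⟩,
      fun p => if h : p < l + 2 * k + 1 then M ⟨p, h⟩ else ∅, fun p q hpq hq => ?_⟩
    have hp : p < l + 2 * k + 1 := hpq.trans hq
    simp only [dif_pos hp, dif_pos hq]
    have h6 : (⟨p, hp⟩ : Fin (l + 2 * k + 1)) < ⟨q, hq⟩ := hpq
    exact ⟨ha h6, hM _ _ h6⟩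
  have hlink : ∀ p q, p < q → q < l + 2 * k + 1 → D (v (a p) (M p)) (y (a q)) =
      some (A (b j + p) (b j + q), cc (A (b j + p) (b j + q))) := by
    intro p q hpq hq
    obtain ⟨-, h6, h7⟩ := haM p q hpq hq
    obtain ⟨bb, h8, h9⟩ := h3 (a p) (M p) (a q)
    have h10 : bb = A (b j + p) (b j + q) := by
      rw [Bool.eq_iff_iff, h8, h6]
    rw [h9, h10, h7]
  have hu : StrictMono fun r : Fin k => a r.1 := fun r s hrs =>
    (haM r.1 s.1 hrs (by have := s.2; omega)).1
  have hw : StrictMono fun r : Fin k => a (l + r.1) := fun r s hrs =>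
    (haM (l + r.1) (l + s.1) (by have : r.1 < s.1 := hrs; omega) (by have := s.2; omega)).1
  have hw' : StrictMono fun r : Fin k => a (l + k + r.1) := fun r s hrs =>
    (haM (l + k + r.1) (l + k + s.1) (by have : r.1 < s.1 := hrs; omega)
      (by have := s.2; omega)).1
  have huw : ∀ r s : Fin k, a r.1 < a (l + s.1) := fun r s =>
    (haM _ _ (by have := r.2; omega) (by have := s.2; omega)).1
  have hww' : ∀ r s : Fin k, a (l + r.1) < a (l + k + s.1) := fun r s =>
    (haM _ _ (by have := r.2; omega) (by have := s.2; omega)).1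
  obtain ⟨F, hF⟩ := hj _ _ hu hw huw
  have hFit : ∀ q, k ≤ q → q < l + 2 * k + 1 →
      Fit D cc A b t y j (fn F) (fun r : Fin k => a r.1) (a q) := fun q hkq hq =>
    (h1 j _ F (a q) (fun r => (haM r.1 q (by have := r.2; omega) hq).1) hF).1
  have hFit0 := hFit k le_rfl (by omega)
  have hOvF : ∀ i, i < b j → Ov (fn F i) :=
    (h1 j _ F (a k) (fun r => (haM r.1 k r.2 (by omega)).1) hF).2
  -- the new copy
  let G : ULift.{u} ℕ → N := fun i =>
    if i.down < b j then F i else v (a (i.down - b j)) (M (i.down - b j))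
  have hG1 : ∀ i, i < b j → fn G i = fn F i := by
    intro i hi
    change ((if i < b j then F ⟨i⟩ else v (a (i - b j)) (M (i - b j)) : N) : V) = _
    rw [if_pos hi]
    rfl
  have hG2 : ∀ p, fn G (b j + p) = v (a p) (M p) := by
    intro p
    change ((if b j + p < b j then F ⟨b j + p⟩ else
      v (a (b j + p - b j)) (M (b j + p - b j)) : N) : V) = _
    rw [if_neg (by omega), Nat.add_sub_cancel_left]
  have hsplit : ∀ i, i < b j ∨ ∃ p, i = b j + p := by
    intro i
    rcases lt_or_ge i (b j) with h | h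
    · exact Or.inl h
    · exact Or.inr ⟨i - b j, by omega⟩
  -- the vertices over `F`
  have hover : ∀ i p, i < b j → p < l + 2 * k + 1 → D (fn F i) (y (a p)) =
      some (A i (b j + p), cc (A i (b j + p))) := by
    intro i p hi hp
    rcases lt_or_ge p k with hpk | hpk
    · exact hFit0.2.1 i hi ⟨p, hpk⟩
    · rw [hA j i (b j + p) hi (by omega)]
      exact (hFit p hpk hp).2.2 i hi
  have hRea : Rea D cc A (b (j + 1)) (fn G) := by
    intro i m him hm
    rcases hsplit m with hmb | ⟨q, rfl⟩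
    · rw [hG1 i (him.trans hmb), hG1 m hmb]
      exact hFit0.1 i m him hmb
    · have hq : q < l := by omega
      rw [hG2 q]
      rcases hsplit i with hib | ⟨p, rfl⟩
      · rw [hG1 i hib, h5 j _ F i _ _ hF]
        exact hover i q hib (by omega)
      · have hpq : p < q := by omega
        rw [hG2 p, h4 _ _ _ _ (haM p q hpq (by omega)).1]
        exact hlink p q hpq (by omega)
  have hGy : ∀ i q, i < b (j + 1) → l ≤ q → q < l + 2 * k + 1 → D (fn G i) (y (a q)) =
      some (A i (b j + q), cc (A i (b j + q))) := by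
    intro i q hi hlq hq
    rcases hsplit i with hib | ⟨p, rfl⟩
    · rw [hG1 i hib]
      exact hover i q hib hq
    · rw [hG2 p]
      exact hlink p q (by omega) hq
  have hGt : ∀ i, i < b (j + 1) → D (fn G i) (y (a (l + k))) = some (t i, cc (t i)) := by
    intro i hi
    have h6 := hGy i (l + k) hi (by omega) (by omega)
    rw [hA (j + 1) i (b j + (l + k)) hi (by omega)] at h6
    exact h6
  have hFitG : Fit D cc A b t y (j + 1) (fn G) (fun r : Fin k => a (l + r.1))
      (a (l + k)) := by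
    refine ⟨hRea, ?_, hGt⟩
    intro i hi r
    rw [hl, Nat.add_assoc]
    exact hGy i (l + r.1) hi (by omega) (by have := r.2; omega)
  have hOvG : ∀ i, i < b (j + 1) → Ov (fn G i) := by
    intro i hi
    rcases hsplit i with hib | ⟨p, rfl⟩
    · rw [hG1 i hib]
      exact hOvF i hib
    · rw [hG2 p]
      exact h6 _ _
  have hus : ∀ r : Fin k, a r.1 < a (l + k) := fun r =>
    (haM _ _ (by have := r.2; omega) (by omega)).1
  have hws : ∀ r : Fin k, a (l + r.1) < a (l + k) := fun r =>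
    (haM _ _ (by have := r.2; omega) (by omega)).1
  obtain ⟨F', hF', hle⟩ := h2 (j + 1) (fun r : Fin k => a (l + r.1)) (a (l + k)) G hws hFitG hOvG
  refine ⟨_, _, _, a (l + k), hu, hw, hw', huw, hww', hus, hws, F, F', hF, hF',
    lt_of_le_of_lt hle ?_⟩
  exact hrk _ _ _ ⟨⟨hb1 j, fun i hi => hG1 i hi, hRea⟩,
    fun i hi => ⟨Subtype.coe_prop _, hGt i hi, hOvG i hi⟩⟩

end Pool.Agent.RKP
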