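import Mathlib
import Pool.Agent.RKP.StepS

/-!
The homogeneous system for sums of blocks: a well ordered sum of blocks of bounded interface is
realised.
-/

set_option autoImplicit false

open Cardinal Order

namespace Pool.Agent.RKP

open Pool.Agent.RKH

universe u

private theorem homS_fun {M Z Y : Type u} (hM : ℵ₀ ≤ #M) (hZ : #Z ≤ #M) (hY : #Y ≤ 2 ^ #M) :
    #(Z → Y) ≤ 2 ^ #M := by
  calc #(Z → Y) = #Y ^ #Z := by simp
    _ ≤ (2 ^ #M) ^ #Z := power_le_power_right hY
    _ = 2 ^ (#M * #Z) := by rw [← power_mul]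
    _ ≤ 2 ^ #M := power_le_power_left two_ne_zero (mul_le_of_le hM le_rfl hZ)

private theorem homS_pi {M Z : Type u} {Y : Z → Type u} (hM : ℵ₀ ≤ #M) (hZ : #Z ≤ #M)
    (hY : ∀ z, #(Y z) ≤ 2 ^ #M) : #(∀ z, Y z) ≤ 2 ^ #M := by
  rw [mk_pi]
  refine (prod_le_prod _ (fun _ => (2 : Cardinal.{u}) ^ #M) hY).trans ?_
  rw [prod_const, lift_id, lift_id, ← power_mul]
  exact power_le_power_left two_ne_zero (mul_le_of_le hM le_rfl hZ)

private theorem homS_mul {M X Y : Type u} (hM : ℵ₀ ≤ #M) (hX : #X ≤ 2 ^ #M) (hY : #Y ≤ 2 ^ #M) :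
    #(X × Y) ≤ 2 ^ #M := by
  rw [mk_prod, lift_id, lift_id]
  exact mul_le_of_le (hM.trans (cantor _).le) hX hY

theorem exists_homS (C : Type u) (k : ℕ) : ∃ M0 : Type u, ∀ M : Type u, ℵ₀ ≤ #M → #C ≤ #M →
    #M0 ≤ #M → ∀ (V : Type u) (D : V → V → Option (Bool × C)) (N : Set V)
      (y : (succ ((2 : Cardinal.{u}) ^ #M)).ord.ToType → V), #N ≤ 2 ^ #M → SysP M D N y →
      ∃ cc : Bool → C, ∀ (Th : Type u) (_ : LinearOrder Th) (_ : WellFoundedLT Th), #Th ≤ #M →
        ∀ (A : Th → ℕ → ℕ → Bool) (b : Th → ℕ → ℕ) (t : Th → ℕ → Bool), (∀ x, b x 0 = 0) →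
        (∀ x j, b x j < b x (j + 1)) → (∀ x j, b x j + k ≤ b x (j + 1)) →
        (∀ x j i m, i < b x j → b x j + k ≤ m → A x i m = t x i) →
        ∃ g : Th → ℕ → V,
          (∀ x i m, i < m → D (g x i) (g x m) = some (A x i m, cc (A x i m))) ∧
          ∀ x x', x < x' → ∀ i m, D (g x i) (g x' m) = some (t x i, cc (t x i)) := by
  classical
  obtain ⟨L, iL1, iL2, hcore⟩ := core_lin C
  let J : Type u := ULift.{u} ℕ × (Bool → C)
  obtain ⟨X, iX1, iX2, hX⟩ := er_two k (J → Prop × Prop) L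
  refine ⟨WithBot X ⊕ (Set L ⊕ J), fun M hM hC hM0 V D N y hN hsys => ?_⟩
  have hXM : #(WithBot X) ≤ #M :=
    (mk_le_of_injective (f := Sum.inl) Sum.inl_injective).trans hM0
  have hSLM : #(Set L) ≤ #M := (mk_le_of_injective (f := fun z => Sum.inr (Sum.inl z))
    (Sum.inr_injective.comp Sum.inl_injective)).trans hM0
  have hJM : #J ≤ #M := (mk_le_of_injective (f := fun z => Sum.inr (Sum.inr z))
    (Sum.inr_injective.comp Sum.inr_injective)).trans hM0
  have hLM : #L ≤ #M := by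
    refine le_trans ?_ hSLM
    rw [mk_set]
    exact (cantor _).le
  have hccM : #(Bool → C) ≤ #M :=
    (mk_le_of_injective (f := fun c : Bool → C => ((⟨0⟩, c) : J))
      (fun c c' h => (Prod.mk.inj h).2)).trans hJM
  have hNatM : #(ULift.{u} ℕ) ≤ #M := by simpa using hM
  have hP : ℵ₀ ≤ (2 : Cardinal.{u}) ^ #M := hM.trans (cantor _).le
  have hMP : #M ≤ (2 : Cardinal.{u}) ^ #M := (cantor _).le
  by_contra hcon
  have hcon' : ∀ cc : Bool → C, ∃ (Th : Type u) (_ : LinearOrder Th) (_ : WellFoundedLT Th)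
      (A : Th → ℕ → ℕ → Bool) (b : Th → ℕ → ℕ) (t : Th → ℕ → Bool), #Th ≤ #M ∧
      (∀ x, b x 0 = 0) ∧ (∀ x j, b x j < b x (j + 1)) ∧ (∀ x j, b x j + k ≤ b x (j + 1)) ∧
      (∀ x j i m, i < b x j → b x j + k ≤ m → A x i m = t x i) ∧
      ¬ ∃ g : Th → ℕ → V,
          (∀ x i m, i < m → D (g x i) (g x m) = some (A x i m, cc (A x i m))) ∧
          ∀ x x', x < x' → ∀ i m, D (g x i) (g x' m) = some (t x i, cc (t x i)) := by
    intro cc
    by_contra h
    exact hcon ⟨cc, fun Th i1 i2 hTh A b t h0 h1 h2 h3 =>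
      by_contra fun h4 => h ⟨Th, i1, i2, A, b, t, hTh, h0, h1, h2, h3, h4⟩⟩
  choose Th iT1 iT2 A b t hTh hb0 hb1 hb2 hA hbad using hcon'
  obtain ⟨v0, hv0⟩ : ∃ v0 : V, v0 ∈ N := by
    obtain ⟨z0, -⟩ := bdd_of_small hP (∅ : Set (succ ((2 : Cardinal.{u}) ^ #M)).ord.ToType)
      (by simp)
    obtain ⟨w, hw, -⟩ := hsys z0 ∅ (Set.empty_subset _) (by simp) ∅ (by simp) ∅
    exact ⟨w, hw⟩
  choose th g hgY rk hrk using fun (cc : Bool → C) (s : (succ ((2 : Cardinal.{u}) ^ #M)).ord.ToType)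
    => exists_trunk D cc N (A cc) (t cc) ⟨v0, hv0⟩ (y s) (hbad cc)
  choose Phi hP1 hP2 using fun cc =>
    exists_leastS (k := k) D cc N (A cc) (b cc) (t cc) y (th cc) (g cc) (rk cc)
  -- the bits
  let Bit : ∀ (cc : Bool → C) (j : ℕ) (u w : Fin k → (succ ((2 : Cardinal.{u}) ^ #M)).ord.ToType)
      (s : (succ ((2 : Cardinal.{u}) ^ #M)).ord.ToType), Prop := fun cc j u w s =>
    ∃ F F', Phi cc j u s = some F ∧ Phi cc (j + 1) w s = some F' ∧
      rk cc s (b cc (th cc s) (j + 1), fn F') < rk cc s (b cc (th cc s) j, fn F)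
  -- end homogeneity
  let K : Type u := ∀ cc : Bool → C, Th cc × ((Th cc → ULift.{u} ℕ → N) ×
    ((ULift.{u} ℕ → Option (ULift.{u} ℕ → N)) × Set (ULift.{u} ℕ)))
  have hK : #K ≤ 2 ^ #M := by
    have hNN : #(ULift.{u} ℕ → N) ≤ 2 ^ #M := homS_fun hM hNatM hN
    refine homS_pi hM hccM fun cc => ?_
    refine homS_mul hM ((hTh cc).trans hMP) (homS_mul hM (homS_fun hM (hTh cc) hNN)
      (homS_mul hM (homS_fun hM hNatM ?_) ?_))
    · rw [mk_option]
      exact add_le_of_le hP hNN (one_le_aleph0.trans hP)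
    · rw [mk_set]
      exact power_le_power_left two_ne_zero hNatM
  obtain ⟨z, x, hx, hxz⟩ := end_homog_m (R := M) (K := K) (k + k) hM hK
    (fun S hS => bdd_of_small hP S hS) (fun uw s cc => (th cc s, g cc s,
      fun j => Phi cc j.down (fun r => uw (Fin.castAdd k r)) s,
      {j | Bit cc j.down (fun r => uw (Fin.castAdd k r)) (fun r => uw (Fin.natAdd k r)) s}))
  -- the embedding
  have hemb : Nonempty (WithBot X ≤i (succ #M).ord.ToType) := by
    rcases InitialSeg.total (· < · : WithBot X → WithBot X → Prop)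
      (· < · : (succ #M).ord.ToType → (succ #M).ord.ToType → Prop) with h | h
    · exact ⟨h⟩
    · exfalso
      have h1 : #((succ #M).ord.ToType) ≤ #(WithBot X) := mk_le_of_injective h.injective
      have h2 : #((succ #M).ord.ToType) = succ #M := by simp
      rw [h2] at h1
      exact absurd (h1.trans hXM) (not_le.mpr (lt_succ _))
  obtain ⟨em⟩ := hemb
  obtain ⟨io, col, hio, hcol⟩ := hX (fun u w jc =>
    ((∃ F, Phi jc.2 jc.1.down (fun r => x (em (u r))) z = some F),
      Bit jc.2 jc.1.down (fun r => x (em (u r))) (fun r => x (em (w r))) z))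
  let e : L → (succ ((2 : Cardinal.{u}) ^ #M)).ord.ToType := fun i => x (em (io i))
  have hem : ∀ i i' : L, i < i' → em (io i : WithBot X) < em (io i' : WithBot X) := fun i i' h =>
    em.strictMono (WithBot.coe_lt_coe.2 (hio h))
  have he : StrictMono e := fun i i' h => hx (hem i i' h)
  let Psi : (Bool → C) → ℕ → (Fin k → L) → Option (ULift.{u} ℕ → N) := fun cc j u =>
    Phi cc j (fun r => e (u r)) z
  have hthg : ∀ (cc : Bool → C) (s : L), th cc (e s) = th cc z ∧ g cc (e s) = g cc z := by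
    intro cc s
    have h1 := hxz (fun _ => em ⊥) (em (io s : WithBot X))
      (fun _ => em.strictMono (WithBot.bot_lt_coe _))
    have h2 := congrFun h1 cc
    simp only [Prod.mk.injEq] at h2
    exact ⟨h2.1, h2.2.1⟩
  have hall2 : ∀ (cc : Bool → C) (u w : Fin k → L) (s : L), (∀ r, u r < s) → (∀ r, w r < s) →
      (∀ j, Phi cc j (fun r => e (u r)) (e s) = Psi cc j u) ∧
      ∀ j, (Bit cc j (fun r => e (u r)) (fun r => e (w r)) (e s) ↔
        Bit cc j (fun r => e (u r)) (fun r => e (w r)) z) := by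
    intro cc u w s hu hw
    have h1 := hxz (Fin.append (fun r => em (io (u r) : WithBot X))
      (fun r => em (io (w r) : WithBot X))) (em (io s : WithBot X)) (by
        intro r
        induction r using Fin.addCases with
        | left r => rw [Fin.append_left]; exact hem _ _ (hu r)
        | right r => rw [Fin.append_right]; exact hem _ _ (hw r))
    have h2 := congrFun h1 cc
    simp only [Fin.append_left, Fin.append_right, Prod.mk.injEq] at h2
    obtain ⟨-, -, h5, h6⟩ := h2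
    refine ⟨fun j => congrFun h5 ⟨j⟩, fun j => ?_⟩
    have h7 := Set.ext_iff.1 h6 ⟨j⟩
    simpa using h7
  -- the vertices
  let Fix1 : Set V := Set.range (fun q : (J × (Fin k → L)) × ULift.{u} ℕ =>
    match Psi q.1.1.2 q.1.1.1.down q.1.2 with
    | some F => (F q.2 : V)
    | none => v0)
  let Fix2 : Set V := Set.range (fun q : Σ cc : Bool → C, Th cc × ULift.{u} ℕ =>
    (g q.1 z q.2.1 q.2.2 : V))
  let Fix : Set V := Fix1 ∪ Fix2
  have hFixN : Fix ⊆ N := by
    rintro _ (⟨q, rfl⟩ | ⟨q, rfl⟩)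
    · dsimp only
      split
      · exact Subtype.coe_prop _
      · exact hv0
    · exact Subtype.coe_prop _
  have hFixM : #Fix ≤ #M := by
    refine (mk_union_le _ _).trans (add_le_of_le hM (mk_range_le.trans ?_)
      (mk_range_le.trans ?_))
    · rw [mk_prod, lift_id, lift_id, mk_prod, lift_id, lift_id]
      refine mul_le_of_le hM (mul_le_of_le hM hJM ?_) hNatM
      have h0 : #(Fin k → L) = #L ^ k := by
        have : #(Fin k → L) = #(ULift.{u} (Fin k) → L) :=
          mk_congr (Equiv.arrowCongr Equiv.ulift.symm (Equiv.refl L))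
        rw [this, ← power_def, mk_uLift, mk_fin, lift_natCast, power_natCast]
      rw [h0]
      exact (pow_le_pow_left' hLM k).trans (power_nat_le hM)
    · rw [mk_sigma]
      refine (sum_le_sum _ (fun _ => #M) fun cc => ?_).trans ?_
      · rw [mk_prod, lift_id, lift_id]
        exact mul_le_of_le hM (hTh cc) hNatM
      · rw [sum_const, lift_id, lift_id]
        exact mul_le_of_le hM hccM le_rfl
  have hFix1 : ∀ cc j u F i, Psi cc j u = some F → fn F i ∈ Fix := by
    intro cc j u F i h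
    refine Or.inl ⟨(((⟨j⟩, cc), u), ⟨i⟩), ?_⟩
    dsimp only
    rw [h]
    rfl
  have hFix2 : ∀ cc x' i, (g cc z x' i : V) ∈ Fix := fun cc x' i =>
    Or.inr ⟨⟨cc, x', i⟩, rfl⟩
  obtain ⟨v, hv⟩ := exists_rec (Th := L) (C := Set L → N) (· < ·) wellFounded_lt
    (fun i g c => ∀ M', (∀ i' (h : i' < i) M'', D (g i' h M'') (c M') =
        D (g i' h M'') (y (e i))) ∧ (∀ f ∈ Fix, D f (c M') = D f (y (e i))) ∧
      ∀ s : L, ∃ (cl : C) (bb : Bool), (bb = true ↔ s ∈ M') ∧
        D (c M') (y (e s)) = some (bb, cl)) (by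
    intro i g
    have h1 : ∀ M' : Set L, ∃ w : N, (∀ i' (h : i' < i) M'', D (g i' h M'') w =
        D (g i' h M'') (y (e i))) ∧ (∀ f ∈ Fix, D f w = D f (y (e i))) ∧
        ∀ s : L, ∃ (cl : C) (bb : Bool), (bb = true ↔ s ∈ M') ∧
          D w (y (e s)) = some (bb, cl) := by
      intro M'
      obtain ⟨w, hwN, hw1, hw2⟩ := hsys (e i)
        (Set.range (fun p : {i' // i' < i} × Set L => (g p.1.1 p.1.2 p.2 : V)) ∪ Fix) (by
          rintro a (⟨p, rfl⟩ | ha)
          · exact Subtype.coe_prop _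
          · exact hFixN ha) (by
          refine (mk_union_le _ _).trans (add_le_of_le hM (mk_range_le.trans ?_) hFixM)
          rw [mk_prod, lift_id, lift_id]
          exact mul_le_of_le hM ((mk_subtype_le _).trans hLM) hSLM)
        (Set.range e) (mk_range_le.trans hLM) (e '' M')
      refine ⟨⟨w, hwN⟩, ?_, ?_, ?_⟩
      · intro i' h M''
        exact hw1 _ (Or.inl ⟨(⟨i', h⟩, M''), rfl⟩)
      · intro f hf
        exact hw1 _ (Or.inr hf)
      · intro s
        obtain ⟨cl, hcl⟩ := hw2 (e s) ⟨s, rfl⟩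
        refine ⟨cl, _, ?_, hcl⟩
        rw [decide_eq_true_iff, he.injective.mem_set_image]
    choose w hw using h1
    exact ⟨w, hw⟩)
  choose c0 bb hbb hc0 using fun i M' => (hv i M').2.2
  obtain ⟨cc, hc⟩ := hcore c0
  have hcol' : ∀ (j : ℕ) (u w u' w' : Fin k → L), StrictMono u → StrictMono w →
      (∀ r s, u r < w s) → StrictMono u' → StrictMono w' → (∀ r s, u' r < w' s) →
      (((∃ F, Psi cc j u = some F) → (∃ F, Psi cc j u' = some F)) ∧
      (Bit cc j (fun r => e (u r)) (fun r => e (w r)) z →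
        Bit cc j (fun r => e (u' r)) (fun r => e (w' r)) z)) := by
    intro j u w u' w' hu hw huw hu' hw' huw'
    have h1 := congrFun ((hcol u w hu hw huw).trans (hcol u' w' hu' hw' huw').symm) (⟨j⟩, cc)
    have h2 := congrArg Prod.fst h1
    have h3 := congrArg Prod.snd h1
    exact ⟨fun h => Eq.mp h2 h, fun h => Eq.mp h3 h⟩
  -- the step
  let Ov : V → Prop := fun w => ∀ x', x' < th cc z → ∀ i' : ULift.{u} ℕ,
    D (g cc z x' i') w = some (t cc x' i'.down, cc (t cc x' i'.down))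
  have hFS : ∀ j (G : ULift.{u} ℕ → N) (u : Fin k → L) (s : L),
      FitS D cc N (A cc) (b cc) (t cc) y (th cc) (g cc) j (fn G) (fun r => e (u r)) (e s) ↔
      (Fit D cc (A cc (th cc z)) (b cc (th cc z)) (t cc (th cc z)) (fun i => y (e i)) j (fn G) u s
        ∧ ∀ i, i < b cc (th cc z) j → Ov (fn G i)) := by
    intro j G u s
    rw [FitS, Fit, (hthg cc s).1, (hthg cc s).2]
    constructor
    · rintro ⟨h1, h2, h3⟩
      exact ⟨⟨h1, h2, fun i hi => (h3 i hi).2.1⟩, fun i hi => (h3 i hi).2.2⟩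
    · rintro ⟨⟨h1, h2, h3⟩, h4⟩
      exact ⟨h1, h2, fun i hi => ⟨Subtype.coe_prop _, h3 i hi, h4 i hi⟩⟩
  have hstep := fun (j : ℕ) (hj : ∀ u w : Fin k → L, StrictMono u → StrictMono w →
      (∀ r s, u r < w s) → ∃ F, Psi cc j u = some F) =>
    stepL D N (fun i => y (e i)) cc (A cc (th cc z)) (b cc (th cc z)) (t cc (th cc z))
      (hb1 cc _) (hb2 cc _) (hA cc _) Ov (fun s => rk cc (e s))
      (fun s p' p hp => hrk cc (e s) p' p (by
        rw [(hthg cc s).1, (hthg cc s).2]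
        exact hp))
      (Psi cc)
      (fun j u F s hus hF => (hFS j F u s).1
        (hP1 cc j _ _ F (((hall2 cc u u s hus hus).1 j).trans hF)))
      (fun j u s G hus hG hGO => by
        obtain ⟨F, hF, hle⟩ := hP2 cc j _ _ G ((hFS j G u s).2 ⟨hG, hGO⟩)
        rw [(hthg cc s).1] at hle
        exact ⟨F, ((hall2 cc u u s hus hus).1 j).symm.trans hF, hle⟩)
      v c0 (fun i M' s => ⟨bb i M' s, hbb i M' s, hc0 i M' s⟩)
      (fun i M' s M'' his => (hv s M'').1 i his M')
      (fun j u F i x M' hF => (hv x M').2.1 _ (hFix1 cc j u F i hF))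
      (fun x M' x' hx' i' => by
        rw [(hv x M').2.1 _ (hFix2 cc x' i')]
        have h1 := hgY cc (e x) x' (by rw [(hthg cc x).1]; exact hx') i'
        rw [(hthg cc x).2] at h1
        exact h1) hc j hj
  have hbit : ∀ (j : ℕ), (∀ u w : Fin k → L, StrictMono u → StrictMono w →
      (∀ r s, u r < w s) → ∃ F, Psi cc j u = some F) →
      ∃ u w w' : Fin k → L, StrictMono u ∧ StrictMono w ∧ StrictMono w' ∧
      (∀ r s, u r < w s) ∧ (∀ r s, w r < w' s) ∧
      (∃ F', Psi cc (j + 1) w = some F') ∧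
      Bit cc j (fun r => e (u r)) (fun r => e (w r)) z := by
    intro j hj
    obtain ⟨u, w, w', s, h1, h2, h3, h4, h5, h6, h7, F, F', hF, hF', hlt⟩ := hstep j hj
    refine ⟨u, w, w', h1, h2, h3, h4, h5, ⟨F', hF'⟩, ((hall2 cc u w s h6 h7).2 j).1
      ⟨F, F', ((hall2 cc u w s h6 h7).1 j).trans hF, ((hall2 cc w u s h7 h6).1 (j + 1)).trans hF',
        ?_⟩⟩
    rw [(hthg cc s).1]
    exact hlt
  have hall : ∀ j, ∀ u w : Fin k → L, StrictMono u → StrictMono w → (∀ r s, u r < w s) →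
      ∃ F, Psi cc j u = some F := by
    intro j
    induction j with
    | zero =>
      intro u w _ _ _
      obtain ⟨F, hF, -⟩ := hP2 cc 0 (fun r => e (u r)) z (fun _ => ⟨v0, hv0⟩) (by
        refine ⟨?_, ?_, ?_⟩
        · intro i m him hm
          rw [hb0] at hm
          omega
        · intro i hi
          rw [hb0] at hi
          omega
        · intro i hi
          rw [hb0] at hi
          omega)
      exact ⟨F, hF⟩
    | succ j ih =>
      intro u w hu hw huw
      obtain ⟨u0, w0, w0', hu0, hw0, hw0', h1, h2, hF', -⟩ := hbit j ih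
      exact (hcol' (j + 1) w0 w0' u w hw0 hw0' h2 hu hw huw).1 hF'
  have hB : ∀ j, ∀ u w : Fin k → L, StrictMono u → StrictMono w → (∀ r s, u r < w s) →
      Bit cc j (fun r => e (u r)) (fun r => e (w r)) z := by
    intro j u w hu hw huw
    obtain ⟨u0, w0, w0', hu0, hw0, hw0', h1, h2, -, hlt⟩ := hbit j (hall j)
    exact (hcol' j u0 w0 u w hu0 hw0 h1 hu hw huw).2 hlt
  -- the descent
  obtain ⟨f, hf⟩ := exists_seq L (fun n => by
    obtain ⟨a, -, ha, -⟩ := hc n (fun _ _ => true)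
    exact ⟨a, ha⟩)
  have hB' : ∀ j, Bit cc j (fun r => e (f (j * k + r.1))) (fun r => e (f ((j + 1) * k + r.1)))
      z := by
    intro j
    refine hB j (fun r => f (j * k + r.1)) (fun r => f ((j + 1) * k + r.1))
      (fun r s hrs => hf (Nat.add_lt_add_left hrs _))
      (fun r s hrs => hf (Nat.add_lt_add_left hrs _)) (fun r s => hf ?_)
    have := r.2
    rw [Nat.add_mul]
    omega
  choose F F' hF hF' hlt using hB'
  refine (wellFounded_iff_isEmpty_descending_chain.1 Ordinal.lt_wf.{u}).false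
    ⟨fun j => rk cc z (b cc (th cc z) j, fn (F j)), fun j => ?_⟩
  have h1 : F' j = F (j + 1) := Option.some.inj ((hF' j).symm.trans (hF (j + 1)))
  have h2 := hlt j
  rw [h1] at h2
  exact h2

end Pool.Agent.RKP
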