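import Mathlib
import Pool.Agent.RKP.Rank
import Pool.Agent.RKP.Ram
import Pool.Agent.RKP.CoreL

/-!
The homogeneous system and the main theorem: a graph of bounded interface is realised.
-/

set_option autoImplicit false

open Cardinal Order

namespace Pool.Agent.RKP

open Pool.Agent.RKH

universe u

/-- The step: a copy of least rank of the first `b j` vertices is extended to a copy of the first
`b (j + 1)` vertices, so the least rank decreases. -/
theorem step {C V T L : Type u} [LinearOrder L] (D : V → V → Option (Bool × C)) (N : Set V)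
    (y : T → V) (cc : Bool → C) (A : ℕ → ℕ → Bool) (b : ℕ → ℕ) (t : ℕ → Bool) {k : ℕ}
    (hb1 : ∀ j, b j < b (j + 1)) (hb2 : ∀ j, b j + k ≤ b (j + 1))
    (hA : ∀ j i m, i < b j → b j + k ≤ m → A i m = t i)
    (rk : ℕ × (ℕ → V) → Ordinal.{u}) (hrk : ∀ s' s, Lon D cc A s' s → rk s' < rk s)
    (Psi : ℕ → (Fin k → L) → Option (ULift.{u} ℕ → N)) (e : L → T)
    (h1 : ∀ j u F s, (∀ r, u r < s) → Psi j u = some F →
      Fit D cc A b t y j (fn F) (fun r => e (u r)) (e s))
    (h2 : ∀ j u s (G : ULift.{u} ℕ → N), (∀ r, u r < s) →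
      Fit D cc A b t y j (fn G) (fun r => e (u r)) (e s) →
      ∃ F, Psi j u = some F ∧ rk (b j, fn F) ≤ rk (b j, fn G))
    (v : L → Set L → N) (c0 : L → Set L → L → C)
    (h3 : ∀ i M s, ∃ bb : Bool, (bb = true ↔ s ∈ M) ∧
      D (v i M) (y (e s)) = some (bb, c0 i M s))
    (h4 : ∀ i M s M', i < s → D (v i M) (v s M') = D (v i M) (y (e s)))
    (h5 : ∀ j u F i x M, Psi j u = some F → D (fn F i) (v x M) = D (fn F i) (y (e x)))
    (hc : ∀ (n : ℕ) (K : Fin n → Fin n → Bool), ∃ (a : Fin n → L) (M : Fin n → Set L),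
      StrictMono a ∧ ∀ p q, p < q → (a q ∈ M p ↔ K p q = true) ∧
        c0 (a p) (M p) (a q) = cc (K p q))
    (j : ℕ) (hj : ∀ u w : Fin k → L, StrictMono u → StrictMono w → (∀ r s, u r < w s) →
      ∃ F, Psi j u = some F) :
    ∃ u w w' : Fin k → L, StrictMono u ∧ StrictMono w ∧ StrictMono w' ∧
      (∀ r s, u r < w s) ∧ (∀ r s, w r < w' s) ∧
      ∃ F F', Psi j u = some F ∧ Psi (j + 1) w = some F' ∧
        rk (b (j + 1), fn F') < rk (b j, fn F) := by
  classical
  obtain ⟨l, hl⟩ : ∃ l, b (j + 1) = b j + l := ⟨b (j + 1) - b j, by have := hb1 j; omega⟩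
  have hlk : k ≤ l := by have := hb2 j; omega
  have hl1 : 1 ≤ l := by have := hb1 j; omega
  obtain ⟨a, M, haM⟩ : ∃ (a : ℕ → L) (M : ℕ → Set L), ∀ p q, p < q → q < l + 2 * k + 1 →
      a p < a q ∧ (a q ∈ M p ↔ A (b j + p) (b j + q) = true) ∧
        c0 (a p) (M p) (a q) = cc (A (b j + p) (b j + q)) := by
    obtain ⟨a, M, ha, hM⟩ := hc (l + 2 * k + 1) (fun p q => A (b j + p.1) (b j + q.1))
    refine ⟨fun p => if h : p < l + 2 * k + 1 then a ⟨p, h⟩ else a ⟨0, by omega⟩,
      fun p => if h : p < l + 2 * k + 1 then M ⟨p, h⟩ else ∅, fun p q hpq hq => ?_⟩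
    have hp : p < l + 2 * k + 1 := hpq.trans hq
    simp only [dif_pos hp, dif_pos hq]
    have h6 : (⟨p, hp⟩ : Fin (l + 2 * k + 1)) < ⟨q, hq⟩ := hpq
    exact ⟨ha h6, hM _ _ h6⟩
  have hlink : ∀ p q, p < q → q < l + 2 * k + 1 → D (v (a p) (M p)) (y (e (a q))) =
      some (A (b j + p) (b j + q), cc (A (b j + p) (b j + q))) := by
    intro p q hpq hq
    obtain ⟨-, h6, h7⟩ := haM p q hpq hq
    obtain ⟨bb, h8, h9⟩ := h3 (a p) (M p) (a q)
    have h10 : bb = A (b j + p) (b j + q) := by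
      rw [Bool.eq_iff_iff, h8, h6]
    rw [h9, h10, h7]
  have hu : StrictMono fun r : Fin k => a r.1 := fun r s hrs =>
    (haM r.1 s.1 hrs (by have := s.2; omega)).1
  have hw : StrictMono fun r : Fin k => a (l + r.1) := fun r s hrs =>
    (haM (l + r.1) (l + s.1) (by have : r.1 < s.1 := hrs; omega) (by have := s.2; omega)).1
  have hw' : StrictMono fun r : Fin k => a (l + k + r.1) := fun r s hrs =>
    (haM (l + k + r.1) (l + k + s.1) (by have : r.1 < s.1 := hrs; omega)
      (by have := s.2; omega)).1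
  have huw : ∀ r s : Fin k, a r.1 < a (l + s.1) := fun r s =>
    (haM _ _ (by have := r.2; omega) (by have := s.2; omega)).1
  have hww' : ∀ r s : Fin k, a (l + r.1) < a (l + k + s.1) := fun r s =>
    (haM _ _ (by have := r.2; omega) (by have := s.2; omega)).1
  obtain ⟨F, hF⟩ := hj _ _ hu hw huw
  have hFit : ∀ q, k ≤ q → q < l + 2 * k + 1 →
      Fit D cc A b t y j (fn F) (fun r : Fin k => e (a r.1)) (e (a q)) := fun q hkq hq =>
    h1 j _ F (a q) (fun r => (haM r.1 q (by have := r.2; omega) hq).1) hF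
  have hFit0 := hFit k le_rfl (by omega)
  -- the new copy
  let G : ULift.{u} ℕ → N := fun i =>
    if i.down < b j then F i else v (a (i.down - b j)) (M (i.down - b j))
  have hG1 : ∀ i, i < b j → fn G i = fn F i := by
    intro i hi
    change ((if i < b j then F ⟨i⟩ else v (a (i - b j)) (M (i - b j)) : N) : V) = _
    rw [if_pos hi]
    rfl
  have hG2 : ∀ p, fn G (b j + p) = v (a p) (M p) := by
    intro p
    change ((if b j + p < b j then F ⟨b j + p⟩ else
      v (a (b j + p - b j)) (M (b j + p - b j)) : N) : V) = _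
    rw [if_neg (by omega), Nat.add_sub_cancel_left]
  have hsplit : ∀ i, i < b j ∨ ∃ p, i = b j + p := by
    intro i
    rcases lt_or_ge i (b j) with h | h
    · exact Or.inl h
    · exact Or.inr ⟨i - b j, by omega⟩
  -- the vertices over `F`
  have hover : ∀ i p, i < b j → p < l + 2 * k + 1 → D (fn F i) (y (e (a p))) =
      some (A i (b j + p), cc (A i (b j + p))) := by
    intro i p hi hp
    rcases lt_or_ge p k with hpk | hpk
    · exact hFit0.2.1 i hi ⟨p, hpk⟩
    · rw [hA j i (b j + p) hi (by omega)]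
      exact (hFit p hpk hp).2.2 i hi
  have hRea : Rea D cc A (b (j + 1)) (fn G) := by
    intro i m him hm
    rcases hsplit m with hmb | ⟨q, rfl⟩
    · rw [hG1 i (him.trans hmb), hG1 m hmb]
      exact hFit0.1 i m him hmb
    · have hq : q < l := by omega
      rw [hG2 q]
      rcases hsplit i with hib | ⟨p, rfl⟩
      · rw [hG1 i hib, h5 j _ F i _ _ hF]
        exact hover i q hib (by omega)
      · have hpq : p < q := by omega
        rw [hG2 p, h4 _ _ _ _ (haM p q hpq (by omega)).1]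
        exact hlink p q hpq (by omega)
  have hGy : ∀ i q, i < b (j + 1) → l ≤ q → q < l + 2 * k + 1 → D (fn G i) (y (e (a q))) =
      some (A i (b j + q), cc (A i (b j + q))) := by
    intro i q hi hlq hq
    rcases hsplit i with hib | ⟨p, rfl⟩
    · rw [hG1 i hib]
      exact hover i q hib hq
    · rw [hG2 p]
      exact hlink p q (by omega) hq
  have hFitG : Fit D cc A b t y (j + 1) (fn G) (fun r : Fin k => e (a (l + r.1)))
      (e (a (l + k))) := by
    refine ⟨hRea, ?_, ?_⟩
    · intro i hi r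
      rw [hl, Nat.add_assoc]
      exact hGy i (l + r.1) hi (by omega) (by have := r.2; omega)
    · intro i hi
      have h6 := hGy i (l + k) hi (by omega) (by omega)
      rw [hA (j + 1) i (b j + (l + k)) hi (by omega)] at h6
      exact h6
  obtain ⟨F', hF', hle⟩ := h2 (j + 1) (fun r : Fin k => a (l + r.1)) (a (l + k)) G
    (fun r => (haM _ _ (by have := r.2; omega) (by omega)).1) hFitG
  refine ⟨_, _, _, hu, hw, hw', huw, hww', F, F', hF, hF', lt_of_le_of_lt hle ?_⟩
  exact hrk _ _ ⟨hb1 j, fun i hi => hG1 i hi, hRea⟩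

private theorem card_fun' {M Z Y : Type u} (hM : ℵ₀ ≤ #M) (hZ : #Z ≤ #M) (hY : #Y ≤ 2 ^ #M) :
    #(Z → Y) ≤ 2 ^ #M := by
  calc #(Z → Y) = #Y ^ #Z := by simp
    _ ≤ (2 ^ #M) ^ #Z := power_le_power_right hY
    _ = 2 ^ (#M * #Z) := by rw [← power_mul]
    _ ≤ 2 ^ #M := power_le_power_left two_ne_zero (mul_le_of_le hM le_rfl hZ)

theorem exists_hom (C : Type u) (k : ℕ) : ∃ M0 : Type u, ∀ M : Type u, ℵ₀ ≤ #M → #C ≤ #M →
    #M0 ≤ #M → ∀ (V : Type u) (D : V → V → Option (Bool × C)) (N : Set V)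
      (y : (succ ((2 : Cardinal.{u}) ^ #M)).ord.ToType → V), #N ≤ 2 ^ #M → SysP M D N y →
      ∃ cc : Bool → C, ∀ (A : ℕ → ℕ → Bool) (b : ℕ → ℕ) (t : ℕ → Bool), b 0 = 0 →
        (∀ j, b j < b (j + 1)) → (∀ j, b j + k ≤ b (j + 1)) →
        (∀ j i m, i < b j → b j + k ≤ m → A i m = t i) →
        ∃ F : ℕ → V, ∀ i m, i < m → D (F i) (F m) = some (A i m, cc (A i m)) := by
  classical
  obtain ⟨L, iL1, iL2, hcore⟩ := core_lin C
  let J : Type u := ULift.{u} ℕ × (Bool → C)
  obtain ⟨X, iX1, iX2, hX⟩ := er_two k (J → Prop × Prop) L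
  refine ⟨X ⊕ (Set L ⊕ J), fun M hM hC hM0 V D N y hN hsys => ?_⟩
  have hXM : #X ≤ #M := (mk_le_of_injective (f := Sum.inl) Sum.inl_injective).trans hM0
  have hSLM : #(Set L) ≤ #M := (mk_le_of_injective (f := fun z => Sum.inr (Sum.inl z))
    (Sum.inr_injective.comp Sum.inl_injective)).trans hM0
  have hJM : #J ≤ #M := (mk_le_of_injective (f := fun z => Sum.inr (Sum.inr z))
    (Sum.inr_injective.comp Sum.inr_injective)).trans hM0
  have hLM : #L ≤ #M := by
    refine le_trans ?_ hSLM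
    rw [mk_set]
    exact (cantor _).le
  have hP : ℵ₀ ≤ (2 : Cardinal.{u}) ^ #M := hM.trans (cantor _).le
  by_contra hcon
  have hcon' : ∀ cc : Bool → C, ∃ (A : ℕ → ℕ → Bool) (b : ℕ → ℕ) (t : ℕ → Bool), b 0 = 0 ∧
      (∀ j, b j < b (j + 1)) ∧ (∀ j, b j + k ≤ b (j + 1)) ∧
      (∀ j i m, i < b j → b j + k ≤ m → A i m = t i) ∧
      ¬ ∃ F : ℕ → V, ∀ i m, i < m → D (F i) (F m) = some (A i m, cc (A i m)) := by
    intro cc
    by_contra h
    exact hcon ⟨cc, fun A b t h0 h1 h2 h3 => by_contra fun h4 => h ⟨A, b, t, h0, h1, h2, h3, h4⟩⟩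
  choose A b t hb0 hb1 hb2 hA hbad using hcon'
  choose rk hrk using fun cc => exists_rank D cc (A cc) (hbad cc)
  choose Phi hP1 hP2 using fun cc =>
    exists_least (k := k) D cc (A cc) (b cc) (t cc) y N (rk cc)
  -- end homogeneity
  have hK : #(J → Option (ULift.{u} ℕ → N)) ≤ 2 ^ #M := by
    refine card_fun' hM hJM ?_
    rw [mk_option]
    refine add_le_of_le hP ?_ (one_le_aleph0.trans hP)
    refine card_fun' hM ?_ hN
    simpa using hM
  obtain ⟨z, x, hx, hxz⟩ := end_homog_m (R := M) (K := J → Option (ULift.{u} ℕ → N)) k hM hK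
    (fun S hS => bdd_of_small hP S hS) (fun u s jc => Phi jc.2 jc.1.down u s)
  have hemb : Nonempty (X ≤i (succ #M).ord.ToType) := by
    rcases InitialSeg.total (· < · : X → X → Prop)
      (· < · : (succ #M).ord.ToType → (succ #M).ord.ToType → Prop) with h | h
    · exact ⟨h⟩
    · exfalso
      have h1 : #((succ #M).ord.ToType) ≤ #X := mk_le_of_injective h.injective
      have h2 : #((succ #M).ord.ToType) = succ #M := by simp
      rw [h2] at h1
      exact absurd (h1.trans hXM) (not_le.mpr (lt_succ _))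
  obtain ⟨em⟩ := hemb
  obtain ⟨io, col, hio, hcol⟩ := hX (fun u w jc =>
    ((∃ F, Phi jc.2 jc.1.down (fun r => x (em (u r))) z = some F),
      ∃ F F', Phi jc.2 jc.1.down (fun r => x (em (u r))) z = some F ∧
        Phi jc.2 (jc.1.down + 1) (fun r => x (em (w r))) z = some F' ∧
        rk jc.2 (b jc.2 (jc.1.down + 1), fn F') < rk jc.2 (b jc.2 jc.1.down, fn F)))
  let e : L → (succ ((2 : Cardinal.{u}) ^ #M)).ord.ToType := fun i => x (em (io i))
  have he : StrictMono e := fun i i' h => hx (em.strictMono (hio h))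
  let Psi : (Bool → C) → ℕ → (Fin k → L) → Option (ULift.{u} ℕ → N) := fun cc j u =>
    Phi cc j (fun r => e (u r)) z
  have hPsi : ∀ cc j (u : Fin k → L) s, (∀ r, u r < s) →
      Phi cc j (fun r => e (u r)) (e s) = Psi cc j u := by
    intro cc j u s hus
    have h1 := hxz (fun r => em (io (u r))) (em (io s)) (fun r => em.strictMono (hio (hus r)))
    exact congrFun h1 (⟨j⟩, cc)
  -- the vertices
  obtain ⟨v0, hv0, -⟩ := hsys z ∅ (Set.empty_subset _) (by simp) ∅ (by simp) ∅
  let Fix : Set V := Set.range (fun q : (J × (Fin k → L)) × ULift.{u} ℕ =>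
    match Psi q.1.1.2 q.1.1.1.down q.1.2 with
    | some F => (F q.2 : V)
    | none => v0)
  have hFixN : Fix ⊆ N := by
    rintro _ ⟨q, rfl⟩
    dsimp only
    split
    · exact Subtype.coe_prop _
    · exact hv0
  have hFixM : #Fix ≤ #M := by
    refine mk_range_le.trans ?_
    rw [mk_prod, lift_id, lift_id, mk_prod, lift_id, lift_id]
    refine mul_le_of_le hM (mul_le_of_le hM hJM ?_) (by simpa using hM)
    have h0 : #(Fin k → L) = #L ^ k := by
      have : #(Fin k → L) = #(ULift.{u} (Fin k) → L) :=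
        mk_congr (Equiv.arrowCongr Equiv.ulift.symm (Equiv.refl L))
      rw [this, ← power_def, mk_uLift, mk_fin, lift_natCast, power_natCast]
    rw [h0]
    exact (pow_le_pow_left' hLM k).trans (power_nat_le hM)
  have hFix : ∀ cc j u F i, Psi cc j u = some F → fn F i ∈ Fix := by
    intro cc j u F i h
    refine ⟨(((⟨j⟩, cc), u), ⟨i⟩), ?_⟩
    dsimp only
    rw [h]
    rfl
  obtain ⟨v, hv⟩ := exists_rec (Th := L) (C := Set L → N) (· < ·) wellFounded_lt
    (fun i g c => ∀ M', (∀ i' (h : i' < i) M'', D (g i' h M'') (c M') =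
        D (g i' h M'') (y (e i))) ∧ (∀ f ∈ Fix, D f (c M') = D f (y (e i))) ∧
      ∀ s : L, ∃ (cl : C) (bb : Bool), (bb = true ↔ s ∈ M') ∧
        D (c M') (y (e s)) = some (bb, cl)) (by
    intro i g
    have h1 : ∀ M' : Set L, ∃ w : N, (∀ i' (h : i' < i) M'', D (g i' h M'') w =
        D (g i' h M'') (y (e i))) ∧ (∀ f ∈ Fix, D f w = D f (y (e i))) ∧
        ∀ s : L, ∃ (cl : C) (bb : Bool), (bb = true ↔ s ∈ M') ∧
          D w (y (e s)) = some (bb, cl) := by
      intro M'
      obtain ⟨w, hwN, hw1, hw2⟩ := hsys (e i)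
        (Set.range (fun p : {i' // i' < i} × Set L => (g p.1.1 p.1.2 p.2 : V)) ∪ Fix) (by
          rintro a (⟨p, rfl⟩ | ha)
          · exact Subtype.coe_prop _
          · exact hFixN ha) (by
          refine (mk_union_le _ _).trans (add_le_of_le hM (mk_range_le.trans ?_) hFixM)
          rw [mk_prod, lift_id, lift_id]
          exact mul_le_of_le hM ((mk_subtype_le _).trans hLM) hSLM)
        (Set.range e) (mk_range_le.trans hLM) (e '' M')
      refine ⟨⟨w, hwN⟩, ?_, ?_, ?_⟩
      · intro i' h M''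
        exact hw1 _ (Or.inl ⟨(⟨i', h⟩, M''), rfl⟩)
      · intro f hf
        exact hw1 _ (Or.inr hf)
      · intro s
        obtain ⟨cl, hcl⟩ := hw2 (e s) ⟨s, rfl⟩
        refine ⟨cl, _, ?_, hcl⟩
        rw [decide_eq_true_iff, he.injective.mem_set_image]
    choose w hw using h1
    exact ⟨w, hw⟩)
  choose c0 bb hbb hc0 using fun i M' => (hv i M').2.2
  obtain ⟨cc, hc⟩ := hcore c0
  have hcol' : ∀ (j : ℕ) (u w u' w' : Fin k → L), StrictMono u → StrictMono w →
      (∀ r s, u r < w s) → StrictMono u' → StrictMono w' → (∀ r s, u' r < w' s) →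
      (((∃ F, Psi cc j u = some F) → (∃ F, Psi cc j u' = some F)) ∧
      ((∃ F F', Psi cc j u = some F ∧ Psi cc (j + 1) w = some F' ∧
          rk cc (b cc (j + 1), fn F') < rk cc (b cc j, fn F)) →
        ∃ F F', Psi cc j u' = some F ∧ Psi cc (j + 1) w' = some F' ∧
          rk cc (b cc (j + 1), fn F') < rk cc (b cc j, fn F))) := by
    intro j u w u' w' hu hw huw hu' hw' huw'
    have h1 := congrFun ((hcol u w hu hw huw).trans (hcol u' w' hu' hw' huw').symm) (⟨j⟩, cc)
    have h2 := congrArg Prod.fst h1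
    have h3 := congrArg Prod.snd h1
    exact ⟨fun h => Eq.mp h2 h, fun h => Eq.mp h3 h⟩
  have hstep := fun (j : ℕ) (hj : ∀ u w : Fin k → L, StrictMono u → StrictMono w →
      (∀ r s, u r < w s) → ∃ F, Psi cc j u = some F) =>
    step D N y cc (A cc) (b cc) (t cc) (hb1 cc) (hb2 cc) (hA cc) (rk cc) (hrk cc) (Psi cc) e
      (fun j u F s hus hF => hP1 cc j _ _ F ((hPsi cc j u s hus).trans hF))
      (fun j u s G hus hG => by
        obtain ⟨F, hF, hle⟩ := hP2 cc j _ _ G hG
        exact ⟨F, (hPsi cc j u s hus).symm.trans hF, hle⟩)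
      v c0 (fun i M' s => ⟨bb i M' s, hbb i M' s, hc0 i M' s⟩)
      (fun i M' s M'' his => (hv s M'').1 i his M')
      (fun j u F i x M' hF => (hv x M').2.1 _ (hFix cc j u F i hF)) hc j hj
  have hall : ∀ j, ∀ u w : Fin k → L, StrictMono u → StrictMono w → (∀ r s, u r < w s) →
      ∃ F, Psi cc j u = some F := by
    intro j
    induction j with
    | zero =>
      intro u w _ _ _
      obtain ⟨F, hF, -⟩ := hP2 cc 0 (fun r => e (u r)) z (fun _ => ⟨v0, hv0⟩) (by
        refine ⟨?_, ?_, ?_⟩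
        · intro i m him hm
          rw [hb0] at hm
          omega
        · intro i hi
          rw [hb0] at hi
          omega
        · intro i hi
          rw [hb0] at hi
          omega)
      exact ⟨F, hF⟩
    | succ j ih =>
      intro u w hu hw huw
      obtain ⟨u0, w0, w0', hu0, hw0, hw0', h1, h2, F, F', hF, hF', -⟩ := hstep j ih
      exact (hcol' (j + 1) w0 w0' u w hw0 hw0' h2 hu hw huw).1 ⟨F', hF'⟩
  have hB : ∀ j, ∀ u w : Fin k → L, StrictMono u → StrictMono w → (∀ r s, u r < w s) →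
      ∃ F F', Psi cc j u = some F ∧ Psi cc (j + 1) w = some F' ∧
        rk cc (b cc (j + 1), fn F') < rk cc (b cc j, fn F) := by
    intro j u w hu hw huw
    obtain ⟨u0, w0, w0', hu0, hw0, hw0', h1, h2, F, F', hF, hF', hlt⟩ := hstep j (hall j)
    exact (hcol' j u0 w0 u w hu0 hw0 h1 hu hw huw).2 ⟨F, F', hF, hF', hlt⟩
  -- the descent
  obtain ⟨f, hf⟩ := exists_seq L (fun n => by
    obtain ⟨a, -, ha, -⟩ := hc n (fun _ _ => true)
    exact ⟨a, ha⟩)
  have hB' : ∀ j, ∃ F F', Psi cc j (fun r => f (j * k + r.1)) = some F ∧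
      Psi cc (j + 1) (fun r => f ((j + 1) * k + r.1)) = some F' ∧
      rk cc (b cc (j + 1), fn F') < rk cc (b cc j, fn F) := by
    intro j
    refine hB j _ _ (fun r s hrs => hf (Nat.add_lt_add_left hrs _))
      (fun r s hrs => hf (Nat.add_lt_add_left hrs _)) (fun r s => hf ?_)
    have := r.2
    rw [Nat.add_mul]
    omega
  choose F F' hF hF' hlt using hB'
  refine (wellFounded_iff_isEmpty_descending_chain.1 Ordinal.lt_wf.{u}).false
    ⟨fun j => rk cc (b cc j, fn (F j)), fun j => ?_⟩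
  have h1 : F' j = F (j + 1) := Option.some.inj ((hF' j).symm.trans (hF (j + 1)))
  have h2 := hlt j
  rw [h1] at h2
  exact h2

end Pool.Agent.RKP
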