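import Mathlib
import Pool.Agent.RKP.Enum

/-!
Well ordered sums of countable blocks of bounded interface and their enumerations.
-/

set_option autoImplicit false

open Cardinal

namespace Pool.Agent.RKP

universe u

/-- The graph `H` is a well ordered sum of countable blocks with interface at most `k`: the
vertices are distributed over countable blocks, the blocks are well ordered, and every finite set
of vertices of a block is contained in a finite set `S` of vertices of this block for which all
vertices outside of `S` in this block and in the later blocks, except at most `k` vertices of this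
block, have the same neighbours in `S`. -/
def SumInterface {W : Type u} (H : SimpleGraph W) (k : ℕ) : Prop :=
  ∃ (Th : Type u) (_ : LinearOrder Th) (_ : WellFoundedLT Th) (bl : W → Th),
    (∀ x, {w | bl w = x}.Countable) ∧
    ∀ (x : Th) (F : Finset W), (∀ w ∈ F, bl w = x) →
      ∃ S E : Finset W, F ⊆ S ∧ (∀ w ∈ S, bl w = x) ∧ (∀ w ∈ E, bl w = x) ∧ E.card ≤ k ∧
        ∀ u ∈ S, ∀ v w, x ≤ bl v → x ≤ bl w → v ∉ S → v ∉ E → w ∉ S → w ∉ E →
          (H.Adj v u ↔ H.Adj w u)

section

variable {W : Type u} {H : SimpleGraph W} {k : ℕ} {Th : Type u} [LinearOrder Th]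

/-- the enumeration of one block -/
private theorem block_enum (bl : W → Th) (x : Th) (hc : {w | bl w = x}.Countable)
    (h : ∀ F : Finset W, (∀ w ∈ F, bl w = x) →
      ∃ S E : Finset W, F ⊆ S ∧ (∀ w ∈ S, bl w = x) ∧ (∀ w ∈ E, bl w = x) ∧ E.card ≤ k ∧
        ∀ u ∈ S, ∀ v w, x ≤ bl v → x ≤ bl w → v ∉ S → v ∉ E → w ∉ S → w ∉ E →
          (H.Adj v u ↔ H.Adj w u)) :
    ∃ (f : W → ℕ) (A : ℕ → ℕ → Bool) (b : ℕ → ℕ) (t : ℕ → Bool),
      (∀ u v, bl u = x → bl v = x → f u = f v → u = v) ∧
      (∀ u v, bl u = x → bl v = x → (H.Adj u v ↔ A (f u) (f v) = true)) ∧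
      (∀ i m, A i m = A m i) ∧
      (∀ u v, bl u = x → x < bl v → (H.Adj u v ↔ t (f u) = true)) ∧
      b 0 = 0 ∧ (∀ j, b j < b (j + 1)) ∧ (∀ j, b j + k ≤ b (j + 1)) ∧
      ∀ j i m, i < b j → b j + k ≤ m → A i m = t i := by
  classical
  -- the vertices of later blocks have the same type
  have hlater : ∀ u v w, bl u = x → x < bl v → x ≤ bl w → (∀ S E : Finset W, u ∈ S →
      (∀ w ∈ S, bl w = x) → (∀ w ∈ E, bl w = x) →
      (∀ u ∈ S, ∀ v w, x ≤ bl v → x ≤ bl w → v ∉ S → v ∉ E → w ∉ S → w ∉ E →
        (H.Adj v u ↔ H.Adj w u)) → w ∉ S ∧ w ∉ E) → (H.Adj v u ↔ H.Adj w u) := by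
    intro u v w hu hv hw hh
    obtain ⟨S, E, hF, hS, hE, -, hh2⟩ := h {u} (by simpa using hu)
    have huS : u ∈ S := hF (Finset.mem_singleton_self u)
    obtain ⟨h1, h2⟩ := hh S E huS hS hE hh2
    exact hh2 u huS v w hv.le hw (fun hvS => hv.ne' (hS v hvS)) (fun hvE => hv.ne' (hE v hvE))
      h1 h2
  have hll : ∀ u v w, bl u = x → x < bl v → x < bl w → (H.Adj v u ↔ H.Adj w u) :=
    fun u v w hu hv hw => hlater u v w hu hv hw.le fun S E _ hS hE _ =>
      ⟨fun hwS => hw.ne' (hS w hwS), fun hwE => hw.ne' (hE w hwE)⟩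
  by_cases hfin : {w | bl w = x}.Finite
  · -- a finite block
    have hfin' : Finite {w | bl w = x} := hfin
    obtain ⟨n, ⟨e⟩⟩ := Finite.exists_equiv_fin {w | bl w = x}
    let f : W → ℕ := fun w => if hw : bl w = x then (e ⟨w, hw⟩).1 else 0
    have hf : ∀ w (hw : bl w = x), f w = (e ⟨w, hw⟩).1 := fun w hw => dif_pos hw
    let t : ℕ → Bool := fun i => if hi : i < n then
      decide (∃ v, x < bl v ∧ H.Adj ((e.symm ⟨i, hi⟩ : {w | bl w = x}) : W) v) else false
    let A : ℕ → ℕ → Bool := fun i m => if hi : i < n then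
        (if hm : m < n then decide (H.Adj ((e.symm ⟨i, hi⟩ : {w | bl w = x}) : W)
          ((e.symm ⟨m, hm⟩ : {w | bl w = x}) : W)) else t i)
      else (if m < n then t m else false)
    refine ⟨f, A, fun j => j * (n + k + 1), t, ?_, ?_, ?_, ?_, by simp, ?_, ?_, ?_⟩
    · intro u v hu hv huv
      rw [hf u hu, hf v hv] at huv
      have h1 := e.injective (Fin.ext huv)
      exact congrArg Subtype.val h1
    · intro u v hu hv
      rw [hf u hu, hf v hv]
      simp only [A, dif_pos (e ⟨u, hu⟩).2, dif_pos (e ⟨v, hv⟩).2, Fin.eta,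
        Equiv.symm_apply_apply, decide_eq_true_eq]
    · intro i m
      simp only [A]
      by_cases hi : i < n
      · by_cases hm : m < n
        · simp only [dif_pos hi, dif_pos hm]
          exact decide_eq_decide.2 (H.adj_comm _ _)
        · simp only [dif_pos hi, dif_neg hm, if_pos hi]
      · by_cases hm : m < n
        · simp only [dif_neg hi, dif_pos hm, if_pos hm]
        · simp only [dif_neg hi, dif_neg hm, if_neg hm, if_neg hi]
    · intro u v hu hv
      rw [hf u hu]
      simp only [t, dif_pos (e ⟨u, hu⟩).2, Fin.eta, Equiv.symm_apply_apply, decide_eq_true_eq]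
      constructor
      · intro huv
        exact ⟨v, hv, huv⟩
      · rintro ⟨w, hw, huw⟩
        exact ((hll u v w hu hv hw).2 huw.symm).symm
    · intro j
      have : (j + 1) * (n + k + 1) = j * (n + k + 1) + (n + k + 1) := by ring
      dsimp only
      omega
    · intro j
      have : (j + 1) * (n + k + 1) = j * (n + k + 1) + (n + k + 1) := by ring
      dsimp only
      omega
    · intro j i m hi hm
      dsimp only at hi hm
      have hj : 1 ≤ j := by
        rcases Nat.eq_zero_or_pos j with h0 | h0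
        · rw [h0] at hi
          omega
        · exact h0
      have h1 : n + k + 1 ≤ j * (n + k + 1) := Nat.le_mul_of_pos_left _ hj
      have hmn : ¬ m < n := by omega
      simp only [A, t, dif_neg hmn, if_neg hmn]
      by_cases hi' : i < n
      · simp only [dif_pos hi']
      · simp only [dif_neg hi']
  · -- an infinite block
    have hcount : Countable {w | bl w = x} := hc
    have hinf : Infinite {w | bl w = x} := Set.infinite_coe_iff.2 hfin
    let HB : SimpleGraph {w | bl w = x} := H.comap Subtype.val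
    have hI : Interface HB k := by
      intro F
      obtain ⟨S, E, hF, hS, hE, hEk, hh⟩ := h (F.map ⟨Subtype.val, Subtype.val_injective⟩) (by
        intro w hw
        rw [Finset.mem_map] at hw
        obtain ⟨w', -, rfl⟩ := hw
        exact w'.2)
      refine ⟨S.subtype (fun w => bl w = x), E.subtype (fun w => bl w = x), ?_, ?_, ?_⟩
      · intro w hw
        rw [Finset.mem_subtype]
        exact hF (Finset.mem_map.2 ⟨w, hw, rfl⟩)
      · refine le_trans ?_ hEk
        rw [Finset.card_subtype]
        exact Finset.card_filter_le _ _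
      · intro u hu v w hv hv' hw hw'
        rw [Finset.mem_subtype] at hu hv hv' hw hw'
        exact hh u hu v w v.2.ge w.2.ge hv hv' hw hw'
    obtain ⟨f0, A, b, t, hinj, hadj, hsym, b0, b1, b2, ht⟩ := exists_enum hI
    let f : W → ℕ := fun w => if hw : bl w = x then f0 ⟨w, hw⟩ else 0
    have hf : ∀ w (hw : bl w = x), f w = f0 ⟨w, hw⟩ := fun w hw => dif_pos hw
    refine ⟨f, A, b, t, ?_, ?_, hsym, ?_, b0, b1, b2, ht⟩
    · intro u v hu hv huv
      rw [hf u hu, hf v hv] at huv
      exact congrArg Subtype.val (hinj huv)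
    · intro u v hu hv
      rw [hf u hu, hf v hv]
      exact hadj ⟨u, hu⟩ ⟨v, hv⟩
    · intro u v hu hv
      rw [hf u hu]
      obtain ⟨S, E, hF, hS, hE, -, hh⟩ := h {u} (by simpa using hu)
      have huS : u ∈ S := hF (Finset.mem_singleton_self u)
      have hbj : ∀ j, j ≤ b j := by
        intro j
        induction j with
        | zero => exact Nat.zero_le _
        | succ j ih => exact lt_of_le_of_lt ih (b1 j)
      set j := f0 ⟨u, hu⟩ + 1 with hj
      have hij : f0 ⟨u, hu⟩ < b j := lt_of_lt_of_le (Nat.lt_succ_self _) (hbj j)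
      -- a vertex of the block far away
      obtain ⟨w, hw1, hw2⟩ : ∃ w : {w | bl w = x}, (w : W) ∉ S ∪ E ∧ b j + k ≤ f0 w := by
        have h1 : (((fun w : {w | bl w = x} => (w : W)) ⁻¹' ((S ∪ E : Finset W) : Set W)) ∪
            {w | f0 w < b j + k}).Finite := by
          refine Set.Finite.union ?_ ?_
          · exact Set.Finite.preimage Subtype.val_injective.injOn (Finset.finite_toSet _)
          · exact Set.Finite.preimage hinj.injOn (Set.finite_Iio (b j + k))
        obtain ⟨w, hw⟩ := h1.infinite_compl.nonempty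
        rw [Set.mem_compl_iff, Set.mem_union, not_or] at hw
        exact ⟨w, fun h2 => hw.1 (Finset.mem_coe.2 h2), not_lt.1 hw.2⟩
      rw [Finset.mem_union, not_or] at hw1
      have h3 := hh u huS v w hv.le w.2.ge (fun hvS => hv.ne' (hS v hvS))
        (fun hvE => hv.ne' (hE v hvE)) hw1.1 hw1.2
      have h4 := ht j _ _ hij hw2
      have h5 := hadj ⟨u, hu⟩ w
      rw [h4] at h5
      rw [H.adj_comm u v, h3, ← h5, H.adj_comm (w : W) u]
      exact Iff.rfl

end

/-- The enumeration of the blocks. -/
theorem exists_sum_enum {W : Type u} {H : SimpleGraph W} {k : ℕ} (h : SumInterface H k) :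
    ∃ (Th : Type u) (_ : LinearOrder Th) (_ : WellFoundedLT Th) (bl : W → Th) (e : W → ℕ)
      (A : Th → ℕ → ℕ → Bool) (b : Th → ℕ → ℕ) (t : Th → ℕ → Bool), #Th ≤ #W ∧
      (∀ u v, bl u = bl v → e u = e v → u = v) ∧
      (∀ u v, bl u = bl v → (H.Adj u v ↔ A (bl u) (e u) (e v) = true)) ∧
      (∀ x i m, A x i m = A x m i) ∧
      (∀ u v, bl u < bl v → (H.Adj u v ↔ t (bl u) (e u) = true)) ∧
      (∀ x, b x 0 = 0) ∧ (∀ x j, b x j < b x (j + 1)) ∧ (∀ x j, b x j + k ≤ b x (j + 1)) ∧
      ∀ x j i m, i < b x j → b x j + k ≤ m → A x i m = t x i := by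
  classical
  obtain ⟨Th, i1, i2, bl, hc, hh⟩ := h
  choose f A b t h1 h2 h3 h4 h5 h6 h7 h8 using fun x => block_enum bl x (hc x) (hh x)
  refine ⟨Set.range bl, inferInstance, inferInstance, fun w => ⟨bl w, w, rfl⟩,
    fun w => f (bl w) w, fun x => A x, fun x => b x, fun x => t x, mk_range_le, ?_, ?_,
    fun x => h3 x, ?_, fun x => h5 x, fun x => h6 x, fun x => h7 x, fun x => h8 x⟩
  · intro u v huv he
    have huv' : bl u = bl v := congrArg Subtype.val huv
    dsimp only at he
    rw [← huv'] at he
    exact h1 (bl u) u v rfl huv'.symm he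
  · intro u v huv
    have huv' : bl u = bl v := congrArg Subtype.val huv
    dsimp only
    rw [← huv']
    exact h2 (bl u) u v rfl huv'.symm
  · intro u v huv
    exact h4 (bl u) u v rfl huv

end Pool.Agent.RKP
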