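import Pool.Agent.RKP.SumEnum

/-!
Examples of well ordered sums of countable blocks of bounded interface: countable graphs of
  bounded
interface, locally finite graphs with exhaustions of bounded boundary in all components (for
example graphs of bounded bandwidth in all components), complements.
-/

set_option autoImplicit false

namespace Pool.Agent.RKP

universe u

variable {W : Type u} {H : SimpleGraph W} {k : ℕ}

/-- One block. -/
theorem sumInterface_of_countable [Countable W] (h : Interface H k) : SumInterface H k := by
  refine ⟨PUnit.{u + 1}, inferInstance, inferInstance, fun _ => PUnit.unit,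
    fun x => Set.to_countable _, fun x F _ => ?_⟩
  obtain ⟨S, E, h1, h2, h3⟩ := h F
  exact ⟨S, E, h1, fun _ _ => rfl, fun _ _ => rfl, h2, fun u hu v w _ _ => h3 u hu v w⟩

/-- The complement has the same interface. -/
theorem sumInterface_compl (h : SumInterface H k) : SumInterface Hᶜ k := by
  obtain ⟨Th, i1, i2, bl, hc, h⟩ := h
  refine ⟨Th, i1, i2, bl, hc, fun x F hF => ?_⟩
  obtain ⟨S, E, h1, h2, h3, h4, h5⟩ := h x F hF
  refine ⟨S, E, h1, h2, h3, h4, fun u hu v w hxv hxw hv hv' hw hw' => ?_⟩
  have hvu : v ≠ u := fun e => hv (e ▸ hu)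
  have hwu : w ≠ u := fun e => hw (e ▸ hu)
  rw [SimpleGraph.compl_adj, SimpleGraph.compl_adj, h5 u hu v w hxv hxw hv hv' hw hw']
  exact ⟨fun h => ⟨hwu, h.2⟩, fun h => ⟨hvu, h.2⟩⟩

private theorem sumEx_countable (hf : ∀ v, (H.neighborSet v).Finite)
    (c : H.ConnectedComponent) : {w | H.connectedComponentMk w = c}.Countable := by
  classical
  induction c using SimpleGraph.ConnectedComponent.ind with
  | _ x =>
    have h1 : ∀ n : ℕ, {w | ∃ p : H.Walk w x, p.length = n}.Finite := by
      intro n
      induction n with
      | zero =>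
        refine (Set.finite_singleton x).subset ?_
        rintro w ⟨p, hp⟩
        exact SimpleGraph.Walk.eq_of_length_eq_zero hp
      | succ n ih =>
        refine (ih.biUnion fun v _ => hf v).subset ?_
        rintro w ⟨p, hp⟩
        cases p with
        | nil => simp at hp
        | cons hadj p =>
          rename_i v
          refine Set.mem_biUnion (x := v) ⟨p, ?_⟩ hadj.symm
          simpa using hp
    refine (Set.countable_iUnion fun n : ℕ => (h1 n).countable).mono ?_
    intro w hw
    obtain ⟨p⟩ := SimpleGraph.ConnectedComponent.eq.1 hw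
    exact Set.mem_iUnion.2 ⟨p.length, p, rfl⟩

/-- Locally finite graphs of any size, such that every finite set of vertices of a component is
contained in a finite set of vertices of this component with at most `k` neighbours outside. -/
theorem sumInterface_of_boundary (hf : ∀ v, (H.neighborSet v).Finite)
    (hb : ∀ (c : H.ConnectedComponent) (F : Finset W), (∀ w ∈ F, H.connectedComponentMk w = c) →
      ∃ S E : Finset W, F ⊆ S ∧ (∀ w ∈ S, H.connectedComponentMk w = c) ∧ E.card ≤ k ∧
        ∀ u ∈ S, ∀ v, v ∉ S → H.Adj v u → v ∈ E) : SumInterface H k := by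
  classical
  obtain ⟨r, hr⟩ : ∃ r : LinearOrder H.ConnectedComponent, @WellFoundedLT _ r.toLT :=
    ⟨linearOrderOfSTO WellOrderingRel, WellOrderingRel.isWellOrder.toIsWellFounded⟩
  refine ⟨H.ConnectedComponent, r, hr, H.connectedComponentMk, fun c => sumEx_countable hf c,
    fun c F hF => ?_⟩
  obtain ⟨S, E, h1, h2, h3, h4⟩ := hb c F hF
  refine ⟨S, E.filter fun w => H.connectedComponentMk w = c, h1, h2,
    fun w hw => (Finset.mem_filter.1 hw).2, (Finset.card_filter_le _ _).trans h3, ?_⟩
  have key : ∀ u ∈ S, ∀ v, v ∉ S → v ∉ E.filter (fun w => H.connectedComponentMk w = c) →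
      ¬ H.Adj v u := by
    intro u hu v hv hv' hadj
    refine hv' (Finset.mem_filter.2 ⟨h4 u hu v hv hadj, ?_⟩)
    rw [← h2 u hu]
    exact SimpleGraph.ConnectedComponent.eq.2 hadj.reachable
  intro u hu v w _ _ hv hv' hw hw'
  exact ⟨fun h => absurd h (key u hu v hv hv'), fun h => absurd h (key u hu w hw hw')⟩

/-- Graphs of any size all components of which have two-way bandwidth at most `k`: the vertices
of every component are numbered by different integers, the numbers of adjacent vertices differ by
at most `k` (disjoint unions of arbitrarily many infinite paths, ladders and so on). -/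
theorem sumInterface_of_bandwidth (f : W → ℤ) (hinj : ∀ u v, H.Reachable u v → f u = f v → u = v)
    (hk : ∀ u v, H.Adj u v → |f u - f v| ≤ k) : SumInterface H (2 * k) := by
  classical
  -- the vertices of the component of `x` with numbers in a finite set
  have hfin : ∀ (x : W) (I : Finset ℤ), ∃ T : Finset W, T.card ≤ I.card ∧
      ∀ w, w ∈ T ↔ H.Reachable w x ∧ f w ∈ I := by
    intro x I
    have h1 : Set.InjOn f {w | H.Reachable w x ∧ f w ∈ I} := fun v hv w hw h =>
      hinj v w (hv.1.trans hw.1.symm) h
    have h2 : {w | H.Reachable w x ∧ f w ∈ I}.Finite := by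
      refine Set.Finite.of_finite_image (f := f) (I.finite_toSet.subset ?_) h1
      rintro _ ⟨w, hw, rfl⟩
      exact hw.2
    refine ⟨h2.toFinset, ?_, fun w => h2.mem_toFinset⟩
    refine Finset.card_le_card_of_injOn f (fun w hw => ?_) ?_
    · exact (h2.mem_toFinset.1 hw).2
    · rwa [h2.coe_toFinset]
  refine sumInterface_of_boundary (fun v => ?_) fun c F hF => ?_
  · obtain ⟨T, -, hT⟩ := hfin v (Finset.Icc (f v - k) (f v + k))
    refine T.finite_toSet.subset fun w hw => (hT w).2 ⟨?_, ?_⟩
    · have h1 : H.Adj v w := hw
      exact h1.symm.reachable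
    · have h1 := hk v w hw
      rw [abs_le] at h1
      exact Finset.mem_Icc.2 ⟨by linarith, by linarith⟩
  · induction c using SimpleGraph.ConnectedComponent.ind with
    | _ x =>
      obtain ⟨n, hn⟩ : ∃ n : ℤ, ∀ w ∈ F, |f w| ≤ n := by
        refine ⟨∑ w ∈ F, |f w|, fun w hw => ?_⟩
        exact Finset.single_le_sum (f := fun w => |f w|) (fun w _ => abs_nonneg _) hw
      obtain ⟨S, -, hS⟩ := hfin x (Finset.Icc (-n) n)
      obtain ⟨E, hE, hE'⟩ := hfin x (Finset.Ioc n (n + k) ∪ Finset.Ico (-n - k) (-n))
      refine ⟨S, E, fun w hw => (hS w).2 ⟨?_, ?_⟩, fun w hw => ?_, hE.trans ?_, ?_⟩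
      · exact SimpleGraph.ConnectedComponent.eq.1 (hF w hw)
      · have h1 := hn w hw
        rw [abs_le] at h1
        exact Finset.mem_Icc.2 h1
      · exact SimpleGraph.ConnectedComponent.eq.2 ((hS w).1 hw).1
      · refine (Finset.card_union_le _ _).trans ?_
        rw [Int.card_Ioc, Int.card_Ico]
        have h1 : (n + k - n).toNat = k := by
          rw [add_sub_cancel_left]
          exact Int.toNat_natCast k
        have h2 : (-n - (-n - k)).toNat = k := by
          rw [sub_sub_cancel]
          exact Int.toNat_natCast k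
        rw [h1, h2]
        omega
      · intro u hu v hv hadj
        obtain ⟨h1, h2⟩ := (hS u).1 hu
        have h3 : H.Reachable v x := hadj.reachable.trans h1
        have h4 : f v ∉ Finset.Icc (-n) n := fun h => hv ((hS v).2 ⟨h3, h⟩)
        have h5 := hk v u hadj
        rw [abs_le] at h5
        rw [Finset.mem_Icc] at h2 h4
        refine (hE' v).2 ⟨h3, ?_⟩
        rw [Finset.mem_union, Finset.mem_Ioc, Finset.mem_Ico]
        omega

end Pool.Agent.RKP
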