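import Pool.Agent.RKP.HomS
import Pool.Agent.RKP.SumEnum
import Pool.Agent.RKC.Defs

/-!
The theorem on well ordered sums of graphs with a bounded interface.
-/

set_option autoImplicit false

open Cardinal Order

namespace Pool.Agent.RKP

open Pool.Agent.RKC

universe u

open Classical in
/-- the relation and the colour of a pair of vertices -/
private noncomputable def DdS {V C : Type u} (G : SimpleGraph V) (f : G.edgeSet → C)
    (g : Gᶜ.edgeSet → C) (x y : V) : Option (Bool × C) :=
  if h : s(x, y) ∈ G.edgeSet then some (true, f ⟨s(x, y), h⟩)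
  else if h : s(x, y) ∈ Gᶜ.edgeSet then some (false, g ⟨s(x, y), h⟩) else none

private theorem DdS_spec {V C : Type u} (G : SimpleGraph V) (f : G.edgeSet → C)
    (g : Gᶜ.edgeSet → C) (x y : V) (hxy : x ≠ y) :
    ∃ (b : Bool) (c : C), DdS G f g x y = some (b, c) ∧ (b = true ↔ G.Adj x y) := by
  classical
  by_cases h : s(x, y) ∈ G.edgeSet
  · refine ⟨true, f ⟨s(x, y), h⟩, by rw [DdS, dif_pos h], ?_⟩
    simpa using (SimpleGraph.mem_edgeSet G).1 h
  · have h' : s(x, y) ∈ Gᶜ.edgeSet := by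
      rw [SimpleGraph.mem_edgeSet, SimpleGraph.compl_adj]
      exact ⟨hxy, fun h1 => h ((SimpleGraph.mem_edgeSet G).2 h1)⟩
    refine ⟨false, g ⟨s(x, y), h'⟩, by rw [DdS, dif_neg h, dif_pos h'], ?_⟩
    simpa using fun h1 => h ((SimpleGraph.mem_edgeSet G).2 h1)

private theorem DdS_type {V C : Type u} {G : SimpleGraph V} {f : G.edgeSet → C}
    {g : Gᶜ.edgeSet → C} {x y : V} {b : Bool} {cc : Bool → C}
    (h : DdS G f g x y = some (b, cc b)) : HasType G f g (cc true) (cc false) (b = true) x y := by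
  classical
  by_cases h1 : s(x, y) ∈ G.edgeSet
  · rw [DdS, dif_pos h1, Option.some.injEq, Prod.mk.injEq] at h
    obtain ⟨rfl, h2⟩ := h
    exact ⟨fun _ => ⟨h1, h2⟩, fun h3 => absurd rfl h3⟩
  · by_cases h2 : s(x, y) ∈ Gᶜ.edgeSet
    · rw [DdS, dif_neg h1, dif_pos h2, Option.some.injEq, Prod.mk.injEq] at h
      obtain ⟨rfl, h3⟩ := h
      exact ⟨fun h4 => absurd h4 (by simp), fun _ => ⟨h2, h3⟩⟩
    · rw [DdS, dif_neg h1, dif_neg h2] at h
      exact absurd h (by simp)

/-- One graph for all colourings, all `k` and all well ordered sums of at most `#K0` vertices. -/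
theorem sum_interface (C K0 : Type u) : ∃ (V : Type u) (G : SimpleGraph V),
    ∀ (f : G.edgeSet → C) (g : Gᶜ.edgeSet → C) (k : ℕ), ∃ c1 c0 : C,
      ∀ (W : Type u) (H : SimpleGraph W), #W ≤ #K0 → SumInterface H k →
        ∃ p : H ↪g G, ∀ x y : W, x ≠ y → HasType G f g c1 c0 (H.Adj x y) (p x) (p y) := by
  classical
  choose M0 hM0 using exists_homS C
  let M : Type u := ULift.{u} ℕ ⊕ C ⊕ K0 ⊕ (Σ k : ULift.{u} ℕ, M0 k.down)
  have hM : ℵ₀ ≤ #M := by
    have h0 : #(ULift.{u} ℕ) ≤ #M := mk_le_of_injective (f := Sum.inl) Sum.inl_injective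
    have h1 : #(ULift.{u} ℕ) = ℵ₀ := by simp
    rw [← h1]
    exact h0
  have hC : #C ≤ #M := mk_le_of_injective (f := fun c => Sum.inr (Sum.inl c))
    (Sum.inr_injective.comp Sum.inl_injective)
  have hK : #K0 ≤ #M := mk_le_of_injective (f := fun c => Sum.inr (Sum.inr (Sum.inl c)))
    (Sum.inr_injective.comp (Sum.inr_injective.comp Sum.inl_injective))
  have hMk : ∀ k, #(M0 k) ≤ #M := fun k =>
    mk_le_of_injective (f := fun m => Sum.inr (Sum.inr (Sum.inr ⟨⟨k⟩, m⟩))) (by
      intro a b h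
      have h1 := Sum.inr_injective (Sum.inr_injective (Sum.inr_injective h))
      exact eq_of_heq (Sigma.mk.inj h1).2)
  obtain ⟨V, G, hG⟩ := sysN C M hM hC
  refine ⟨V, G, fun f g k => ?_⟩
  obtain ⟨N, y, hN, hsys⟩ := hG (DdS G f g) (DdS_spec G f g)
  obtain ⟨cc, hcc⟩ := hM0 k M hM hC (hMk k) V (DdS G f g) N y hN hsys
  refine ⟨cc true, cc false, fun W H hW hH => ?_⟩
  obtain ⟨Th, i1, i2, bl, e, A, b, t, hTh, he, hA, hAs, ht, b0, b1, b2, b3⟩ :=
    exists_sum_enum hH
  obtain ⟨F, hF1, hF2⟩ := hcc Th i1 i2 (hTh.trans (hW.trans hK)) A b t b0 b1 b2 b3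
  have key : ∀ u v : W, u ≠ v → HasType G f g (cc true) (cc false) (H.Adj u v)
      (F (bl u) (e u)) (F (bl v) (e v)) := by
    have aux1 : ∀ u v : W, bl u = bl v → e u < e v →
        HasType G f g (cc true) (cc false) (H.Adj u v) (F (bl u) (e u)) (F (bl v) (e v)) := by
      intro u v hb huv
      have h1 := hF1 (bl u) _ _ huv
      rw [← hb]
      exact (DdS_type h1).congr (hA u v hb).symm
    have aux2 : ∀ u v : W, bl u < bl v →
        HasType G f g (cc true) (cc false) (H.Adj u v) (F (bl u) (e u)) (F (bl v) (e v)) := by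
      intro u v hb
      exact (DdS_type (hF2 _ _ hb _ _)).congr (ht u v hb).symm
    intro u v huv
    rcases lt_trichotomy (bl u) (bl v) with h | h | h
    · exact aux2 u v h
    · rcases lt_trichotomy (e u) (e v) with h' | h' | h'
      · exact aux1 u v h h'
      · exact absurd (he u v h h') huv
      · exact ((aux1 v u h.symm h').symm).congr (H.adj_comm v u)
    · exact ((aux2 v u h).symm).congr (H.adj_comm v u)
  have hinj : Function.Injective fun u => F (bl u) (e u) := by
    intro u v huv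
    by_contra hne
    exact (key u v hne).ne huv
  refine ⟨⟨⟨fun u => F (bl u) (e u), hinj⟩, ?_⟩, key⟩
  intro u v
  by_cases huv : u = v
  · subst huv
    simp
  · exact (key u v huv).adj_iff

end Pool.Agent.RKP
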